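import Pool.Agent.Helper73.E8.Int.Fin

/-!
# Block E8-RLAT: the lattice `L` away from 31

`Is31 x`: `31^n x` is integral for some `n`.

* `is31_of_dv`: if `dv x v ≥ 0` for all `v ≠ P0`, then `Is31 x` (`31^n x` has divisor `≥ 0` for large `n`: `dv 31 P0 > 0`
  (`31 ∈ P0`: `P0` contains `ζ - 1` and `31 = Φ_31(1)`, or `Pool.Agent.Helper2.E8A.dI_away`-type lemmas); an element with divisor `≥ 0` is integral:
  `FractionalIdeal` counts `≥ 0` gives `spanSingleton x ≤ 1`).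
* `mem_of_dI`: if `I ≠ 0` and `dI I v ≤ 0` for all `v ≠ P0`, then `31^n ∈ I` for some `n` (`spanSingleton (31^n) ≤ I` iff counts `≥`).
* `coord_x`: for `y = f (1 ⊗ z) ∈ M` and `x ∈ IA f (-a)`: `bf y (x • e (-a)) = - x * y.x a` is integral (`inM_dual`, `mem_IA`). For
  `v ≠ P0` choose `x ∈ IA f (-a)` with `dv x v = dI (IA f (-a)) v = 0` (`exists_min`): `dv (y.x a) v ≥ 0` (if `y.x a ≠ 0`). Use `is31_of_dv`.
* `coord_h`: `31 c (y.h) ∈ M` by `inM_31c`; `integral_h`.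
* `inM_of_is31`: if all coordinates of `y` satisfy `Is31`, then `31^n y ∈ M` for some `n`: `31^n ∈ IA f a` for all `a` (`mem_of_dI`), `mem_IA`;
  `31 t (al i) ∈ M` (`inM_t`); `decomp`, `c_eq_sum`, `inM_sum`, `inM_smul`.
* `exists_of_fixed`: `31^n y = f (cT L (algebraMap (𝓞 K) K) z)`, `z ∈ 𝓞 K ⊗ L`. `TT f y = mono σ W η y = y` (`hTT`), so
  `cT L σ (f.symm (31^n y)) = f.symm (31^n y)`. In a `Z`-basis `b_i` of `L`: `f.symm (31^n y) = ∑ r_i ⊗ b_i`, `r_i` integral, and `σ r_i = r_i`, so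
  `r_i` is rational (`Pool.Agent.Helper2.E8A`: `σ` generates the Galois group; e.g. `IsGalois.mem_bot_iff_fixed`-type lemmas, `σ` generates
  `K ≃ₐ[ℚ] K` as `3` generates `(ZMod 31)ˣ`), hence an integer (`IsInteger_of_is_root_of_monic`, `IsIntegrallyClosed`).
-/

set_option autoImplicit false

open scoped TensorProduct

namespace Pool.Agent.Helper73.E8

open Chev NumberField Polynomial
open Pool.Agent.Helper2.E8A (K ζ σ FI dI dv P0 V D T S Φ Tp A)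

/-- `31^n x` is integral for some `n`. -/
def Is31 (x : K) : Prop := ∃ n : ℕ, IsIntegral ℤ ((31 : K) ^ n * x)

private theorem ideal36 {J : FI} (hJ : J ≠ 0) (h : ∀ v : V, 0 ≤ dI J v) : ∃ a : Ideal (𝓞 K), (a : FI) = J := by
  rw [← FractionalIdeal.finprod_heightOneSpectrum_factorization' K hJ]
  refine finprod_induction (fun I : FI => ∃ a : Ideal (𝓞 K), (a : FI) = I) ⟨⊤, FractionalIdeal.coeIdeal_top _⟩ ?_ ?_
  · rintro _ _ ⟨a, rfl⟩ ⟨b, rfl⟩
    exact ⟨a * b, FractionalIdeal.coeIdeal_mul a b⟩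
  · intro v
    obtain ⟨n, hn⟩ := Int.eq_ofNat_of_zero_le (h v)
    refine ⟨v.asIdeal ^ n, ?_⟩
    rw [FractionalIdeal.coeIdeal_pow]
    have h1 : FractionalIdeal.count K v J = (n : ℤ) := hn
    rw [h1, zpow_natCast]

private theorem mem36 {I : FI} (hI : I ≠ 0) (x : Additive Kˣ) (h : ∀ v : V, dI I v ≤ dv x v) : (x.toMul : K) ∈ I := by
  have hx0 : FractionalIdeal.spanSingleton (nonZeroDivisors (𝓞 K)) (x.toMul : K) ≠ 0 :=
    FractionalIdeal.spanSingleton_ne_zero_iff.mpr (Units.ne_zero _)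
  obtain ⟨a, ha⟩ := ideal36 (mul_ne_zero hx0 (inv_ne_zero hI)) (fun v => by
    rw [Pool.Agent.Helper2.E8A.dI_mul hx0 (inv_ne_zero hI), Pool.Agent.Helper2.E8A.dI_inv,
      Pool.Agent.Helper2.E8A.dI_span, Finsupp.add_apply, Finsupp.neg_apply]
    linarith [h v])
  have h1 : FractionalIdeal.spanSingleton (nonZeroDivisors (𝓞 K)) (x.toMul : K) = (a : FI) * I := by
    rw [ha, mul_assoc, inv_mul_cancel₀ hI, mul_one]
  have h2 : (a : FI) * I ≤ I := by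
    rw [FractionalIdeal.mul_le]
    intro r hr i hi
    obtain ⟨r', -, rfl⟩ := (FractionalIdeal.mem_coeIdeal _).1 hr
    rw [← Algebra.smul_def]
    exact Submodule.smul_mem (I : Submodule (𝓞 K) K) r' hi
  rw [← FractionalIdeal.spanSingleton_le_iff_mem, h1]
  exact h2

private theorem mem31_36 : ((31 : ℕ) : 𝓞 K) ∈ P0.asIdeal := by
  have h31 : Associated ((Pool.Agent.Helper2.E8A.hζ.toInteger - 1) ^ 30) ((31 : ℕ) : 𝓞 K) :=
    IsCyclotomicExtension.Rat.associated_zeta_sub_one_pow_prime 31 Pool.Agent.Helper2.E8A.hζ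
  change _ ∈ Ideal.span {Pool.Agent.Helper2.E8A.hζ.toInteger - 1}
  rw [Ideal.mem_span_singleton]
  exact (dvd_pow_self _ (by norm_num)).trans h31.dvd

private theorem exists36 {I : FI} (hI : I ≠ 0) (x : Additive Kˣ) (h : ∀ v : V, v ≠ P0 → dI I v ≤ dv x v) :
    ∃ n : ℕ, (31 : K) ^ n * (x.toMul : K) ∈ I := by
  obtain ⟨z, hz⟩ := Pool.Agent.Helper2.E8A.exists_toMul (31 : K) (by norm_num)
  have hz' : (((31 : ℕ) : 𝓞 K) : K) = (z.toMul : K) := by
    rw [hz]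
    exact map_natCast (algebraMap (𝓞 K) K) 31
  have h0 : 1 ≤ dv z P0 := (Pool.Agent.Helper2.E8A.dv_pos_iff hz' P0).2 mem31_36
  refine ⟨(dI I P0 - dv x P0).toNat, ?_⟩
  have h1 : (((dI I P0 - dv x P0).toNat • z + x).toMul : K) =
      (31 : K) ^ (dI I P0 - dv x P0).toNat * (x.toMul : K) := by
    rw [← hz, ← Pool.Agent.Helper2.E8A.toMul_nsmul']
    rfl
  rw [← h1]
  refine mem36 hI _ fun v => ?_
  rw [_root_.map_add, Finsupp.add_apply, map_nsmul, Finsupp.smul_apply, nsmul_eq_mul]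
  by_cases hv : v = P0
  · rw [hv]
    have h2 := Int.self_le_toNat (dI I P0 - dv x P0)
    have h3 : ((dI I P0 - dv x P0).toNat : ℤ) * 1 ≤ ((dI I P0 - dv x P0).toNat : ℤ) * dv z P0 :=
      mul_le_mul_of_nonneg_left h0 (by positivity)
    linarith
  · have h2 := Pool.Agent.Helper2.E8A.dv_nonneg hz' v
    have h3 : 0 ≤ ((dI I P0 - dv x P0).toNat : ℤ) * dv z v := mul_nonneg (by positivity) h2
    linarith [h v hv]

theorem is31_of_dv (x : Additive Kˣ) (h : ∀ v : V, v ≠ P0 → 0 ≤ dv x v) : Is31 (x.toMul : K) := by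
  obtain ⟨n, hn⟩ := exists36 (I := 1) one_ne_zero x fun v hv => by
    rw [Pool.Agent.Helper2.E8A.dI_one, Finsupp.zero_apply]
    exact h v hv
  obtain ⟨r, hr⟩ := (FractionalIdeal.mem_one_iff _).1 hn
  refine ⟨n, ?_⟩
  rw [← hr]
  exact r.isIntegral_coe

theorem mem_of_dI {I : FI} (hI : I ≠ 0) (h : ∀ v : V, v ≠ P0 → dI I v ≤ 0) : ∃ n : ℕ, (31 : K) ^ n ∈ I := by
  obtain ⟨n, hn⟩ := exists36 hI 0 fun v hv => by
    rw [_root_.map_zero, Finsupp.zero_apply]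
    exact h v hv
  refine ⟨n, ?_⟩
  have h1 : ((Additive.toMul (0 : Additive Kˣ) : Kˣ) : K) = 1 := rfl
  rwa [h1, mul_one] at hn

variable {L : Type} [LieRing L] [Module.Free ℤ L] [Module.Finite ℤ L] {B : LinearMap.BilinForm ℤ L}

theorem coord_x (hL : IsLat L B) {f : K ⊗[ℤ] L ≃ₗ⁅K⁆ Chev K} (h0 : ∀ (a : Root) (v : V), v ≠ P0 → dI (IA f a) v = 0)
    (y : L) (a : Root) : Is31 ((f (1 ⊗ₜ y)).x a) := by
  by_cases hy : (f (1 ⊗ₜ y)).x a = 0
  · rw [hy]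
    exact ⟨0, by rw [mul_zero]; exact isIntegral_zero⟩
  obtain ⟨u, hu⟩ := Pool.Agent.Helper2.E8A.exists_toMul _ hy
  rw [← hu]
  refine is31_of_dv u fun v hv => ?_
  obtain ⟨x, hx, hxv⟩ := Pool.Agent.Helper2.E8A.exists_min (IA_ne_zero hL f (-a)) v
  rw [h0 (-a) v hv] at hxv
  have h1 := (inM_dual f hL _).1 (inM_of f y) _ ((mem_IA hL f (-a) _).1 hx)
  have h2 : bf (f (1 ⊗ₜ y)) (e (-a)) = -(f (1 ⊗ₜ y)).x a := by
    rw [bf_comm]
    unfold bf
    simp only [e_h, e_x, Pi.zero_apply, zero_mul, Finset.sum_const_zero, zero_sub]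
    rw [Finset.sum_eq_single (-a)]
    · rw [Pi.single_eq_same, one_mul, neg_neg]
    · intro c _ hc
      rw [Pi.single_eq_of_ne hc, zero_mul]
    · intro h
      exact absurd (Finset.mem_univ _) h
  rw [bf_smul_right, h2, mul_neg, ← hu] at h1
  have h3 := h1.neg
  rw [neg_neg] at h3
  have h4 : 0 ≤ dv (x + u) v := by
    refine Pool.Agent.Helper2.E8A.dv_nonneg (y := ⟨_, h3⟩) ?_ v
    rfl
  rw [_root_.map_add, Finsupp.add_apply, hxv, zero_add] at h4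
  exact h4

theorem coord_h (hL : IsLat L B) {f : K ⊗[ℤ] L ≃ₗ⁅K⁆ Chev K} {g : L ≃ₗ⁅ℤ⁆ L}
    (hfg : ∀ y : L, f (1 ⊗ₜ g y) = gz ζ (f (1 ⊗ₜ y))) (y : L) (i : Fin 8) :
    IsIntegral ℤ ((31 : K) * (f (1 ⊗ₜ y)).h i) := by
  have h1 := inM_31c hfg (inM_of f y)
  rw [← c_smul] at h1
  exact integral_h hL f _ h1 i

private theorem P_add36 {f : K ⊗[ℤ] L ≃ₗ⁅K⁆ Chev K} {y z : Chev K} (hy : ∃ n : ℕ, InM f ((31 : K) ^ n • y))
    (hz : ∃ n : ℕ, InM f ((31 : K) ^ n • z)) : ∃ n : ℕ, InM f ((31 : K) ^ n • (y + z)) := by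
  obtain ⟨n, hn⟩ := hy
  obtain ⟨m, hm⟩ := hz
  refine ⟨n + m, ?_⟩
  have h1 : ∀ k : ℕ, IsIntegral ℤ ((31 : K) ^ k) := fun k => by
    have h2 : IsIntegral ℤ (31 : K) := isIntegral_natCast 31
    exact h2.pow k
  have h2 : (31 : K) ^ (n + m) • (y + z) = (31 : K) ^ m • ((31 : K) ^ n • y) + (31 : K) ^ n • ((31 : K) ^ m • z) := by
    rw [smul_add, smul_smul, smul_smul, pow_add, mul_comm ((31 : K) ^ m)]
  rw [h2]
  exact inM_add (inM_smul (h1 m) hn) (inM_smul (h1 n) hm)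

private theorem P_sum36 {f : K ⊗[ℤ] L ≃ₗ⁅K⁆ Chev K} {ι : Type*} (s : Finset ι) (y : ι → Chev K)
    (h : ∀ i ∈ s, ∃ n : ℕ, InM f ((31 : K) ^ n • y i)) : ∃ n : ℕ, InM f ((31 : K) ^ n • ∑ i ∈ s, y i) := by
  classical
  induction s using Finset.induction_on with
  | empty => exact ⟨0, by rw [Finset.sum_empty, smul_zero]; exact inM_zero f⟩
  | insert a s ha ih =>
    rw [Finset.sum_insert ha]
    exact P_add36 (h a (Finset.mem_insert_self a s)) (ih fun i hi => h i (Finset.mem_insert_of_mem hi))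

private theorem P_smul36 {f : K ⊗[ℤ] L ≃ₗ⁅K⁆ Chev K} {r : K} (hr : Is31 r) {y : Chev K}
    (hy : ∃ n : ℕ, InM f ((31 : K) ^ n • y)) : ∃ n : ℕ, InM f ((31 : K) ^ n • (r • y)) := by
  obtain ⟨m, hm⟩ := hr
  obtain ⟨n, hn⟩ := hy
  refine ⟨m + n, ?_⟩
  have h2 : (31 : K) ^ (m + n) • (r • y) = ((31 : K) ^ m * r) • ((31 : K) ^ n • y) := by
    rw [smul_smul, smul_smul, pow_add]
    congr 1
    ring
  rw [h2]
  exact inM_smul hm hn

theorem inM_of_is31 (hL : IsLat L B) {f : K ⊗[ℤ] L ≃ₗ⁅K⁆ Chev K} {g : L ≃ₗ⁅ℤ⁆ L}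
    (hfg : ∀ y : L, f (1 ⊗ₜ g y) = gz ζ (f (1 ⊗ₜ y))) (h0 : ∀ (a : Root) (v : V), v ≠ P0 → dI (IA f a) v = 0)
    (y : Chev K) (hx : ∀ a, Is31 (y.x a)) (hh : ∀ i, Is31 (y.h i)) : ∃ n : ℕ, InM f ((31 : K) ^ n • y) := by
  rw [decomp y, c_eq_sum]
  refine P_add36 (P_sum36 _ _ fun i _ => P_smul36 (hh i) ⟨1, ?_⟩) (P_sum36 _ _ fun a _ => P_smul36 (hx a) ?_)
  · rw [pow_one]
    exact inM_t hL hfg (al i)
  · obtain ⟨n, hn⟩ := mem_of_dI (IA_ne_zero hL f a) fun v hv => (h0 a v hv).le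
    exact ⟨n, (mem_IA hL f a _).1 hn⟩

/-- The fixed field of `σ`. -/
private theorem fixed36 {x : K} (hx : σ x = x) (hi : IsIntegral ℤ x) : ∃ n : ℤ, (n : K) = x := by
  have hgal : IsGalois ℚ K := IsCyclotomicExtension.isGalois {31} ℚ K
  have h1 : ∀ i : ℕ, (σ ^ i) x = x := by
    intro i
    induction i with
    | zero => rfl
    | succ i ih => rw [pow_succ, AlgEquiv.mul_apply, hx, ih]
  have h2 : ∀ τ : K ≃ₐ[ℚ] K, τ x = x := by
    intro τ
    obtain ⟨i, -, hi⟩ := Pool.Agent.Helper2.E8A.aut_eq τ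
    rw [hi]
    exact h1 i
  obtain ⟨q, hq⟩ := (IsGalois.mem_range_algebraMap_iff_fixed x).2 h2
  have h3 : IsIntegral ℤ q := by
    rw [← hq] at hi
    exact (isIntegral_algebraMap_iff (algebraMap ℚ K).injective).1 hi
  obtain ⟨n, hn⟩ := IsIntegrallyClosed.isIntegral_iff.1 h3
  refine ⟨n, ?_⟩
  rw [← hq, ← hn]
  simp

theorem exists_of_fixed (hL : IsLat L B) {f : K ⊗[ℤ] L ≃ₗ⁅K⁆ Chev K} {g : L ≃ₗ⁅ℤ⁆ L}
    (hfg : ∀ y : L, f (1 ⊗ₜ g y) = gz ζ (f (1 ⊗ₜ y))) (h0 : ∀ (a : Root) (v : V), v ≠ P0 → dI (IA f a) v = 0)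
    {η : Lat → ℤˣ} (hTT : IsTT f η 1) (y : Chev K) (hx : ∀ a, Is31 (y.x a)) (hh : ∀ i, Is31 (y.h i))
    (hy : mono (σ : K →+* K) W W_isom (fun a => ((η a.1 : ℤ) : K)) y = y) :
    ∃ (n : ℕ) (z : L), f (1 ⊗ₜ z) = (31 : K) ^ n • y := by
  obtain ⟨n, z, hz⟩ := inM_of_is31 hL hfg h0 y hx hh
  refine ⟨n, ?_⟩
  have hT : TT f ((31 : K) ^ n • y) = (31 : K) ^ n • y := by
    rw [hTT, mono_smul, map_pow]
    have h31 : (σ : K →+* K) (31 : K) = 31 := map_ofNat _ 31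
    rw [h31]
    congr 1
    conv_rhs => rw [← hy]
    congr 1
    funext a
    simp
  let b := Module.Free.chooseBasis ℤ L
  let bK := b.baseChange K
  have hbK : ∀ i, bK i = (1 : K) ⊗ₜ[ℤ] b i := fun i => by
    rw [Module.Basis.baseChange_apply]
  obtain ⟨q, hq⟩ : ∃ q : K ⊗[ℤ] L, q = cT L (algebraMap (𝓞 K) K) z := ⟨_, rfl⟩
  rw [← hq] at hz
  have hσ : cT L (σ : K →+* K) q = q := by
    rw [← hz] at hT
    unfold TT at hT
    rw [f.symm_apply_apply] at hT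
    exact f.injective hT
  have hcoord : ∀ (w : K ⊗[ℤ] L) i, bK.repr (cT L (σ : K →+* K) w) i = σ (bK.repr w i) := by
    intro w i
    induction w using TensorProduct.induction_on with
    | zero => rw [map_zero, map_zero, Finsupp.zero_apply, map_zero]
    | tmul a x =>
      rw [cT_tmul]
      have h1 : ∀ c : K, bK.repr (c ⊗ₜ[ℤ] x) i = c * ((b.repr x i : ℤ) : K) := by
        intro c
        rw [Module.Basis.baseChange_repr_tmul]
        simp [mul_comm]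
      rw [h1, h1, map_mul, map_intCast]
      rfl
    | add u v hu hv =>
      rw [_root_.map_add, _root_.map_add, Finsupp.add_apply, hu, hv, _root_.map_add, Finsupp.add_apply, _root_.map_add]
  have hint : ∀ (w : 𝓞 K ⊗[ℤ] L) i, IsIntegral ℤ (bK.repr (cT L (algebraMap (𝓞 K) K) w) i) := by
    intro w i
    induction w using TensorProduct.induction_on with
    | zero => rw [map_zero, map_zero, Finsupp.zero_apply]; exact isIntegral_zero
    | tmul a x =>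
      rw [cT_tmul]
      have h1 : ∀ c : K, bK.repr (c ⊗ₜ[ℤ] x) i = c * ((b.repr x i : ℤ) : K) := by
        intro c
        rw [Module.Basis.baseChange_repr_tmul]
        simp [mul_comm]
      rw [h1]
      exact a.isIntegral_coe.mul (isIntegral_intCast _)
    | add u v hu hv =>
      rw [_root_.map_add, _root_.map_add, Finsupp.add_apply]
      exact hu.add hv
  have hr : ∀ i, ∃ m : ℤ, (m : K) = bK.repr q i := by
    intro i
    refine fixed36 ?_ ?_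
    · rw [← hcoord, hσ]
    · rw [hq]
      exact hint z i
  choose m hm using hr
  refine ⟨∑ i, m i • b i, ?_⟩
  rw [← hz]
  congr 1
  rw [← bK.sum_repr q, TensorProduct.tmul_sum]
  refine Finset.sum_congr rfl fun i _ => ?_
  rw [← hm i, hbK, TensorProduct.smul_tmul', smul_eq_mul, mul_one, TensorProduct.tmul_smul,
    TensorProduct.smul_tmul', zsmul_eq_mul, mul_one]

end Pool.Agent.Helper73.E8
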