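import Pool.Agent.Helper73.E8.Isom
import Pool.Agent.Helper73.E8.HomExt

/-!
# Block E8-BK: the basis `W^k α_0`, `k = 0, ..., 7`

The rows of
`![![1,0,0,0,0,0,0,0], ![0,0,0,1,1,1,0,0], ![1,1,1,2,2,1,1,0], ![0,-1,-1,-1,-1,0,0,0], ![1,2,2,4,4,3,2,1], ![0,-1,-1,-1,-1,-1,0,0],
  ![1,1,2,3,3,3,2,1], ![1,2,2,4,3,2,2,1]]`
are `W^k (al 0)` (check with `decide`); the inverse matrix is
`![![1,0,0,0,0,0,0,0], ![0,-1,0,1,1,-1,-1,0], ![0,0,0,-1,-1,0,1,0], ![0,1,0,0,-1,0,0,1], ![0,0,0,-1,1,1,0,-1], ![0,0,0,1,0,-1,0,0],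
  ![-1,-1,1,1,0,0,0,0], ![1,0,-2,-1,1,1,0,0]]`: its row `i` gives `al i` as an integer combination of the `W^k (al 0)`.
* `exists_hom_bk`: define `X v = ∏ i, (∏ k, x k ^ (Bi i k)) ^ v i`.
* `hom_unique_bk`: `al i` is a combination of the `W^k (al 0)`, use `hom_unique`.
* `hom_bk`: if a homomorphism `u` is 1 on `W^k (al 0)`, `k < 7`, and `c` on `W^7 (al 0)`, then on `W^k (al 0)`, `k = 8, ..., 14` it is
  `c^-1, c, 1, 1, c, c^-1, c` (coordinates of `W^k (al 0)` in the basis, last one; `decide` or `W_phi` repeatedly).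
-/

set_option autoImplicit false

namespace Pool.Agent.Helper73.E8

variable {G : Type*} [CommGroup G]

private def h42B : Fin 8 → Lat :=
  ![![1,0,0,0,0,0,0,0], ![0,0,0,1,1,1,0,0], ![1,1,1,2,2,1,1,0], ![0,-1,-1,-1,-1,0,0,0], ![1,2,2,4,4,3,2,1],
    ![0,-1,-1,-1,-1,-1,0,0], ![1,1,2,3,3,3,2,1], ![1,2,2,4,3,2,2,1]]

private def h42C : Fin 8 → Lat :=
  ![![1,0,0,0,0,0,0,0], ![0,-1,0,1,1,-1,-1,0], ![0,0,0,-1,-1,0,1,0], ![0,1,0,0,-1,0,0,1], ![0,0,0,-1,1,1,0,-1],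
    ![0,0,0,1,0,-1,0,0], ![-1,-1,1,1,0,0,0,0], ![1,0,-2,-1,1,1,0,0]]

private theorem h42_B (k : Fin 8) : W^[(k : ℕ)] (al 0) = h42B k := by
  fin_cases k <;> decide

private theorem h42_BC (k l : Fin 8) : ∑ i, h42C i l * h42B k i = if k = l then 1 else 0 := by
  revert k l
  decide

private theorem h42_al (i : Fin 8) : al i = ∑ k, h42C i k • h42B k := by
  fin_cases i <;> decide

private theorem h42_zpow_sum (g : G) (f : Fin 8 → ℤ) : ∏ i, g ^ f i = g ^ (∑ i, f i) := by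
  simp only [Fin.prod_univ_eight, Fin.sum_univ_eight, zpow_add]

theorem exists_hom_bk (x : Fin 8 → G) :
    ∃ X : Multiplicative Lat →* G, ∀ k : Fin 8, X (Multiplicative.ofAdd (W^[k] (al 0))) = x k := by
  let X : Multiplicative Lat →* G :=
    { toFun := fun v => ∏ i, (∏ k, x k ^ h42C i k) ^ (Multiplicative.toAdd v i)
      map_one' := by simp
      map_mul' := fun a b => by
        rw [← Finset.prod_mul_distrib]
        refine Finset.prod_congr rfl fun i _ => ?_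
        rw [toAdd_mul, Pi.add_apply, zpow_add] }
  refine ⟨X, fun k => ?_⟩
  rw [h42_B]
  change ∏ i, (∏ l, x l ^ h42C i l) ^ (h42B k i) = x k
  simp only [← Finset.prod_zpow, ← zpow_mul]
  rw [Finset.prod_comm]
  simp only [h42_zpow_sum, h42_BC]
  rw [Finset.prod_eq_single k]
  · simp
  · intro l _ hl
    rw [if_neg (Ne.symm hl), zpow_zero]
  · intro h
    exact absurd (Finset.mem_univ _) h

theorem hom_unique_bk (X X' : Multiplicative Lat →* G)
    (h : ∀ k : Fin 8, X (Multiplicative.ofAdd (W^[k] (al 0))) = X' (Multiplicative.ofAdd (W^[k] (al 0)))) : X = X' := by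
  refine hom_unique X X' fun i => ?_
  rw [h42_al i, ofAdd_sum, map_prod, map_prod]
  refine Finset.prod_congr rfl fun k _ => ?_
  rw [ofAdd_zsmul, map_zpow, map_zpow, ← h42_B, h k]

private theorem h42_rec (u : Multiplicative Lat →* G) (j : ℕ) :
    u (Multiplicative.ofAdd (W^[8 + j] (al 0))) =
      (u (Multiplicative.ofAdd (W^[7 + j] (al 0))))⁻¹ * u (Multiplicative.ofAdd (W^[5 + j] (al 0))) *
        u (Multiplicative.ofAdd (W^[4 + j] (al 0))) * u (Multiplicative.ofAdd (W^[3 + j] (al 0))) *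
        (u (Multiplicative.ofAdd (W^[1 + j] (al 0))))⁻¹ * (u (Multiplicative.ofAdd (W^[j] (al 0))))⁻¹ := by
  have h := W_phi (W^[j] (al 0))
  have h1 : W^[8 + j] (al 0) = -W^[7 + j] (al 0) + W^[5 + j] (al 0) + W^[4 + j] (al 0) + W^[3 + j] (al 0)
      + (-W^[1 + j] (al 0)) + (-W^[j] (al 0)) := by
    simp only [Function.iterate_add_apply, Function.iterate_one]
    rw [← sub_eq_zero]
    rw [← h]
    abel
  rw [h1]
  simp only [ofAdd_add, ofAdd_neg, map_mul, map_inv]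

theorem hom_bk (u : Multiplicative Lat →* G) (c : G) (h : ∀ k : ℕ, k < 7 → u (Multiplicative.ofAdd (W^[k] (al 0))) = 1)
    (h7 : u (Multiplicative.ofAdd (W^[7] (al 0))) = c) :
    u (Multiplicative.ofAdd (W^[8] (al 0))) = c⁻¹ ∧ u (Multiplicative.ofAdd (W^[9] (al 0))) = c ∧
    u (Multiplicative.ofAdd (W^[10] (al 0))) = 1 ∧ u (Multiplicative.ofAdd (W^[11] (al 0))) = 1 ∧
    u (Multiplicative.ofAdd (W^[12] (al 0))) = c ∧ u (Multiplicative.ofAdd (W^[13] (al 0))) = c⁻¹ ∧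
    u (Multiplicative.ofAdd (W^[14] (al 0))) = c := by
  set a : ℕ → G := fun k => u (Multiplicative.ofAdd (W^[k] (al 0))) with ha
  have hr : ∀ j, a (8 + j) = (a (7 + j))⁻¹ * a (5 + j) * a (4 + j) * a (3 + j) * (a (1 + j))⁻¹ * (a j)⁻¹ :=
    fun j => h42_rec u j
  have h' : ∀ k, k < 7 → a k = 1 := h
  have h7' : a 7 = c := h7
  have e8 : a 8 = c⁻¹ := by
    rw [hr 0]
    simp [h' 5, h' 4, h' 3, h' 1, h' 0, h7']
  have e9 : a 9 = c := by
    rw [hr 1]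
    simp [h' 6, h' 5, h' 4, h' 2, h' 1, e8]
  have e10 : a 10 = 1 := by
    rw [hr 2]
    simp [h' 6, h' 5, h' 3, h' 2, e9, h7']
  have e11 : a 11 = 1 := by
    rw [hr 3]
    simp [h' 6, h' 4, h' 3, e10, e8, h7']
  have e12 : a 12 = c := by
    rw [hr 4]
    simp [h' 5, h' 4, e11, e9, e8, h7']
  have e13 : a 13 = c⁻¹ := by
    rw [hr 5]
    simp [h' 6, h' 5, e12, e10, e9, e8]
  have e14 : a 14 = c := by
    rw [hr 6]
    simp [h' 6, e13, e11, e10, e9, h7']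
  exact ⟨e8, e9, e10, e11, e12, e13, e14⟩

end Pool.Agent.Helper73.E8
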