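import Pool.Agent.Helper73.E8.Ct
import Pool.Agent.Helper73.E8.Gz
import Pool.Agent.Helper73.E8.Mono
import Pool.Agent.Helper2.E8A.Fr

/-!
# Integral structure (definitions)

`f : K ⊗ L ≃ Chev K`. `InM f y`: `y` is in the `𝓞 K`-lattice `M = f (𝓞 K ⊗ L)`. `TT f` is the semilinear map
`f ∘ (σ ⊗ 1) ∘ f⁻¹`. `IA f a` is the fractional ideal of all `x` with `x e_a ∈ M`. `resc X f` is `f` followed by the torus
element `X`.
-/

set_option autoImplicit false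

open scoped TensorProduct

namespace Pool.Agent.Helper73.E8

open Chev NumberField
open Pool.Agent.Helper2.E8A (K ζ σ FI dI dv P0 V D)

variable {L : Type} [LieRing L]

/-- `y` is in the `𝓞 K`-lattice spanned by `f (1 ⊗ L)`. -/
def InM (f : K ⊗[ℤ] L ≃ₗ⁅K⁆ Chev K) (y : Chev K) : Prop := ∃ z : 𝓞 K ⊗[ℤ] L, f (cT L (algebraMap (𝓞 K) K) z) = y

/-- The semilinear map `f ∘ (σ ⊗ 1) ∘ f⁻¹`. -/
noncomputable def TT (f : K ⊗[ℤ] L ≃ₗ⁅K⁆ Chev K) (y : Chev K) : Chev K := f (cT L (σ : K →+* K) (f.symm y))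

open scoped Classical in
/-- The fractional ideal of all `x` with `x e_a ∈ M`. -/
noncomputable def IA (f : K ⊗[ℤ] L ≃ₗ⁅K⁆ Chev K) (a : Root) : FI :=
  if h : ∃ I : FI, ∀ x : K, x ∈ I ↔ InM f (x • e a) then h.choose else 0

/-- `f` followed by a torus element. -/
noncomputable def resc (X : Multiplicative Lat →* Kˣ) (f : K ⊗[ℤ] L ≃ₗ⁅K⁆ Chev K) : K ⊗[ℤ] L ≃ₗ⁅K⁆ Chev K :=
  f.trans (monoEquiv (AddEquiv.refl Lat) isIsom_refl _ (isCoc_torus X))

end Pool.Agent.Helper73.E8
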