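import Pool.Agent.Helper73.E8.Int.Defs
import Pool.Agent.Helper73.E8.Int.Bk
import Pool.Agent.Helper73.E8.Semi
import Pool.Agent.Helper73.E8.Dyn
import Pool.Agent.Helper2.E8A.Sig

/-!
# Block E8-NORM: the semilinear map `TT f`, rescaling, normalisation

* `TT_resc`: `TT (resc X f) y = X (TT f (X⁻¹ y))` with the torus element `X` (`mono 1 1 X`): use `mono_comp`, or `eq_mono` (values on
  `t v` and `e a`: `e a ↦ σ(X a)⁻¹ k_a X(W a) e_(W a)`).
* `gz_resc`: `mono 1 1 X` and `gz ζ` are both diagonal.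
* `exists_TT`: `T = TT f` is `σ`-semilinear, bijective, preserves brackets (`cT_smul`, `cT` is a `LieHom`, `cT_bijective`), and
  `T (gz ζ y) = gz ζ (T y)` (`gz ζ y = f (cG g (f.symm y))`, by `hfg` and `K`-linearity, and `cT_cG`). The Cartan subalgebra is
  `{y : gz ζ y = y}` (`ζ^(ht a) ≠ 1`: `ht_root_ne_zero`, `abs_ht_root_le`), so `T` preserves it: `exists_mono` gives `T = mono σ w k`.
  `T (gz ζ (e a)) = gz ζ (T (e a))` gives `ζ^(3 ht a) = ζ^(ht (w a))` (`σ_ζ`), so `ht (w a) = 3 ht a` mod 31 for roots and hence for all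
  vectors, `w = W` (`eq_W`). `isCoc_factor`: `k a = η a * u a`.
* `exists_norm`: let `u` be as in `exists_TT`. Choose `X` (`exists_hom_bk`) with `X (W^0 α_0) = 1`,
  `X (W^(k+1) α_0) = σ (X (W^k α_0)) / u (W^k α_0)` for `k = 0, ..., 6` (recursively defined values). By `TT_resc` the new `u'` is
  `u'(x) = u x X(W x) / σ (X x)` (a homomorphism), and `u' (W^k α_0) = 1` for `k < 7`.
-/

set_option autoImplicit false

open scoped TensorProduct

namespace Pool.Agent.Helper73.E8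

open Chev NumberField
open Pool.Agent.Helper2.E8A (K ζ σ)

variable {L : Type} [LieRing L]

/-- `TT f` is `n ∘ σ` up to the torus element `u`; `η` are the signs which lift `W`. -/
def IsTT (f : K ⊗[ℤ] L ≃ₗ⁅K⁆ Chev K) (η : Lat → ℤˣ) (u : Multiplicative Lat →* Kˣ) : Prop :=
  ∀ y, TT f y = mono (σ : K →+* K) W W_isom (fun a => ((η a.1 : ℤ) : K) * (u (Multiplicative.ofAdd a.1) : K)) y

/-- The torus element. -/
private noncomputable def mX67 (X : Multiplicative Lat →* Kˣ) : Chev K ≃ₗ⁅K⁆ Chev K :=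
  monoEquiv (AddEquiv.refl Lat) isIsom_refl _ (isCoc_torus X)

private theorem mX_eq67 (X : Multiplicative Lat →* Kˣ) (y : Chev K) :
    mX67 X y = ⟨y.h, fun a => (X (Multiplicative.ofAdd a.1) : K) * y.x a⟩ := by
  ext i
  · change ∑ j, y.h j * (((AddEquiv.refl Lat) (al j) i : ℤ) : K) = y.h i
    rw [Finset.sum_eq_single i]
    · simp [al]
    · intro j _ hj
      simp [al, hj.symm]
    · intro h
      exact absurd (Finset.mem_univ _) h
  · rfl

private theorem mX_t67 (X : Multiplicative Lat →* Kˣ) (v : Lat) : mX67 X (t v) = t v := by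
  rw [mX_eq67]
  ext i
  · rfl
  · simp

private theorem mX_e67 (X : Multiplicative Lat →* Kˣ) (a : Root) :
    mX67 X (e a) = (X (Multiplicative.ofAdd a.1) : K) • e a := by
  rw [mX_eq67]
  ext i
  · simp
  · by_cases hi : i = a
    · subst hi
      simp
    · simp [hi]

private theorem TT_mX67 (X : Multiplicative Lat →* Kˣ) (f : K ⊗[ℤ] L ≃ₗ⁅K⁆ Chev K) (y : Chev K) :
    TT (resc X f) (mX67 X y) = mX67 X (TT f y) := by
  have h1 : (resc X f).symm (mX67 X y) = f.symm y := by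
    change f.symm ((mX67 X).symm (mX67 X y)) = f.symm y
    rw [LieEquiv.symm_apply_apply]
  unfold TT
  rw [h1]
  rfl

private theorem gz_mX67 (X : Multiplicative Lat →* Kˣ) (z : K) (y : Chev K) :
    mX67 X (gz z y) = gz z (mX67 X y) := by
  rw [mX_eq67, mX_eq67]
  ext i
  · rfl
  · change (X (Multiplicative.ofAdd i.1) : K) * (z ^ (ht i.1) * y.x i) =
      z ^ (ht i.1) * ((X (Multiplicative.ofAdd i.1) : K) * y.x i)
    ring

private theorem gz_add67 (z : K) (y y' : Chev K) : gz z (y + y') = gz z y + gz z y' := by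
  ext i
  · rfl
  · change z ^ (ht i.1) * (y.x i + y'.x i) = z ^ (ht i.1) * y.x i + z ^ (ht i.1) * y'.x i
    ring

private theorem gz_smul67 (z r : K) (y : Chev K) : gz z (r • y) = r • gz z y := by
  ext i
  · rfl
  · change z ^ (ht i.1) * (r * y.x i) = r * (z ^ (ht i.1) * y.x i)
    ring

private theorem gz_c67 (z : K) (h : Fin 8 → K) : gz z (c h) = c h := by
  ext i
  · rfl
  · change z ^ (ht i.1) * (0 : K) = 0
    rw [mul_zero]

private theorem gz_e67 (z : K) (a : Root) : gz z (e a) = z ^ (ht a.1) • (e a : Chev K) := by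
  ext i
  · change (0 : Fin 8 → K) i = z ^ (ht a.1) * (0 : K)
    rw [mul_zero]
    rfl
  · change z ^ (ht i.1) * (e a : Chev K).x i = z ^ (ht a.1) * (e a : Chev K).x i
    by_cases hi : i = a
    · rw [hi]
    · rw [e_x, Pi.single_eq_of_ne hi, mul_zero, mul_zero]

private theorem TT_add67 (f : K ⊗[ℤ] L ≃ₗ⁅K⁆ Chev K) (y z : Chev K) : TT f (y + z) = TT f y + TT f z := by
  unfold TT
  rw [_root_.map_add, _root_.map_add, _root_.map_add]

private theorem TT_smul67 (f : K ⊗[ℤ] L ≃ₗ⁅K⁆ Chev K) (r : K) (y : Chev K) : TT f (r • y) = σ r • TT f y := by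
  unfold TT
  rw [_root_.map_smul, cT_smul, _root_.map_smul]
  rfl

private theorem TT_lie67 (f : K ⊗[ℤ] L ≃ₗ⁅K⁆ Chev K) (y z : Chev K) : TT f ⁅y, z⁆ = ⁅TT f y, TT f z⁆ := by
  unfold TT
  rw [LieEquiv.map_lie]
  exact (congrArg f (LieHom.map_lie (cT L (σ : K →+* K)) (f.symm y) (f.symm z))).trans (LieEquiv.map_lie f _ _)

private theorem TT_bij67 (f : K ⊗[ℤ] L ≃ₗ⁅K⁆ Chev K) : Function.Bijective (TT f) := by
  have h1 : Function.Bijective (cT L ((σ : K ≃+* K) : K →+* K)) := cT_bijective L (σ : K ≃+* K)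
  exact f.bijective.comp (h1.comp f.symm.bijective)

private theorem cG_f67 {f : K ⊗[ℤ] L ≃ₗ⁅K⁆ Chev K} {g : L ≃ₗ⁅ℤ⁆ L}
    (hfg : ∀ y : L, f (1 ⊗ₜ g y) = gz ζ (f (1 ⊗ₜ y))) (z : K ⊗[ℤ] L) :
    f (cG K (g : L →ₗ⁅ℤ⁆ L) z) = gz ζ (f z) := by
  induction z using TensorProduct.induction_on with
  | zero =>
    rw [map_zero, map_zero]
    ext i
    · rfl
    · change (0 : K) = ζ ^ (ht i.1) * (0 : K)
      rw [mul_zero]
  | tmul a x =>
    rw [cG_tmul]
    have h1 : ∀ x : L, (a ⊗ₜ[ℤ] x : K ⊗[ℤ] L) = a • ((1 : K) ⊗ₜ[ℤ] x) := fun x => by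
      rw [TensorProduct.smul_tmul', smul_eq_mul, mul_one]
    rw [h1 ((g : L →ₗ⁅ℤ⁆ L) x), h1 x, _root_.map_smul, _root_.map_smul, gz_smul67]
    exact congrArg (fun w => a • w) (hfg x)
  | add y z hy hz => rw [_root_.map_add, _root_.map_add, _root_.map_add, hy, hz, gz_add67]

private theorem TT_gz67 {f : K ⊗[ℤ] L ≃ₗ⁅K⁆ Chev K} {g : L ≃ₗ⁅ℤ⁆ L}
    (hfg : ∀ y : L, f (1 ⊗ₜ g y) = gz ζ (f (1 ⊗ₜ y))) (y : Chev K) : TT f (gz ζ y) = gz ζ (TT f y) := by
  have h1 : f.symm (gz ζ y) = cG K (g : L →ₗ⁅ℤ⁆ L) (f.symm y) := by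
    have h0 : f (f.symm (gz ζ y)) = f (cG K (g : L →ₗ⁅ℤ⁆ L) (f.symm y)) := by
      rw [LieEquiv.apply_symm_apply, cG_f67 hfg, LieEquiv.apply_symm_apply]
    exact f.injective h0
  unfold TT
  rw [h1, cT_cG, cG_f67 hfg]

private theorem zpow_ne67 (a : Root) : (ζ : K) ^ (ht a.1) ≠ 1 := by
  intro h
  have h1 := (Pool.Agent.Helper2.E8A.hζ.zpow_eq_one_iff_dvd (ht a.1)).1 h
  have h2 := abs_ht_root_le a
  have h3 := ht_root_ne_zero a
  rw [abs_le] at h2
  obtain ⟨m, hm⟩ := h1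
  push_cast at hm
  omega

theorem TT_resc {f : K ⊗[ℤ] L ≃ₗ⁅K⁆ Chev K} {η : Lat → ℤˣ} {u : Multiplicative Lat →* Kˣ} (h : IsTT f η u)
    (X u' : Multiplicative Lat →* Kˣ)
    (hu : ∀ x : Lat, (u' (Multiplicative.ofAdd x) : K) * σ (X (Multiplicative.ofAdd x) : K) =
      (u (Multiplicative.ofAdd x) : K) * (X (Multiplicative.ofAdd (W x)) : K)) : IsTT (resc X f) η u' := by
  intro y
  obtain ⟨z, rfl⟩ : ∃ z, mX67 X z = y := ⟨(mX67 X).symm y, (mX67 X).apply_symm_apply y⟩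
  rw [TT_mX67, h z]
  have h1 : ∀ z : Chev K, mX67 X (mono (σ : K →+* K) W W_isom
      (fun a => ((η a.1 : ℤ) : K) * (u (Multiplicative.ofAdd a.1) : K)) z) =
      mono (σ : K →+* K) W W_isom (fun a => (X (Multiplicative.ofAdd (W a.1)) : K) *
        (((η a.1 : ℤ) : K) * (u (Multiplicative.ofAdd a.1) : K))) z := by
    intro z
    refine eq_mono (σ : K →+* K) W W_isom _ (F := fun z => mX67 X (mono (σ : K →+* K) W W_isom
      (fun a => ((η a.1 : ℤ) : K) * (u (Multiplicative.ofAdd a.1) : K)) z))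
      (fun y z => by rw [mono_add, _root_.map_add]) (fun r y => by rw [mono_smul, _root_.map_smul])
      (fun i => by rw [mono_t, mX_t67]) (fun a => ?_) z
    rw [mono_e, _root_.map_smul, mX_e67, smul_smul, onRoot_val, mul_comm]
  have h2 : ∀ z : Chev K, mono (σ : K →+* K) W W_isom
      (fun a => ((η a.1 : ℤ) : K) * (u' (Multiplicative.ofAdd a.1) : K)) (mX67 X z) =
      mono (σ : K →+* K) W W_isom (fun a => (X (Multiplicative.ofAdd (W a.1)) : K) *
        (((η a.1 : ℤ) : K) * (u (Multiplicative.ofAdd a.1) : K))) z := by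
    intro z
    refine eq_mono (σ : K →+* K) W W_isom _ (F := fun z => mono (σ : K →+* K) W W_isom
      (fun a => ((η a.1 : ℤ) : K) * (u' (Multiplicative.ofAdd a.1) : K)) (mX67 X z))
      (fun y z => by rw [_root_.map_add, mono_add]) (fun r y => by rw [_root_.map_smul, mono_smul])
      (fun i => by rw [mX_t67, mono_t]) (fun a => ?_) z
    rw [mX_e67, mono_smul, mono_e, smul_smul]
    congr 1
    have h3 := hu a.1
    change σ (X (Multiplicative.ofAdd a.1) : K) * (((η a.1 : ℤ) : K) * (u' (Multiplicative.ofAdd a.1) : K)) = _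
    linear_combination ((η a.1 : ℤ) : K) * h3
  rw [h1, h2]

theorem gz_resc {f : K ⊗[ℤ] L ≃ₗ⁅K⁆ Chev K} {g : L ≃ₗ⁅ℤ⁆ L} (hfg : ∀ y : L, f (1 ⊗ₜ g y) = gz ζ (f (1 ⊗ₜ y)))
    (X : Multiplicative Lat →* Kˣ) (y : L) : resc X f (1 ⊗ₜ g y) = gz ζ (resc X f (1 ⊗ₜ y)) := by
  change mX67 X (f (1 ⊗ₜ g y)) = gz ζ (mX67 X (f (1 ⊗ₜ y)))
  rw [hfg, gz_mX67]

theorem exists_TT {f : K ⊗[ℤ] L ≃ₗ⁅K⁆ Chev K} {g : L ≃ₗ⁅ℤ⁆ L} (hfg : ∀ y : L, f (1 ⊗ₜ g y) = gz ζ (f (1 ⊗ₜ y)))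
    {η : Lat → ℤˣ} (hη : IsLift W η) : ∃ u : Multiplicative Lat →* Kˣ, IsTT f η u := by
  have hh : ∀ h : Fin 8 → K, (TT f (c h)).x = 0 := by
    intro h
    have h1 := TT_gz67 hfg (c h)
    rw [gz_c67] at h1
    funext a
    have h2 : (TT f (c h)).x a = ζ ^ (ht a.1) * (TT f (c h)).x a := congrArg (fun z : Chev K => z.x a) h1
    have h3 : (ζ ^ (ht a.1) - 1) * (TT f (c h)).x a = 0 := by
      rw [sub_mul, one_mul, ← h2, sub_self]
    exact (mul_eq_zero.1 h3).resolve_left (sub_ne_zero.2 (zpow_ne67 a))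
  obtain ⟨w, hw, k, hk, hT⟩ := exists_mono (σ : K ≃+* K) (TT f) (TT_add67 f) (TT_smul67 f) (TT_lie67 f)
    (TT_bij67 f) hh
  have hroot : ∀ a : Root, ((ht (w a.1) : ℤ) : ZMod 31) = 3 * (ht a.1 : ℤ) := by
    intro a
    have h1 := TT_gz67 hfg (e a)
    rw [gz_e67, TT_smul67, hT, mono_e, gz_smul67, gz_e67, smul_smul, smul_smul, map_zpow₀,
      Pool.Agent.Helper2.E8A.σ_ζ, onRoot_val] at h1
    have h2 : (ζ ^ 3) ^ (ht a.1) * k a = k a * ζ ^ (ht (w a.1)) := by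
      have h3 := congrArg (fun z : Chev K => z.x (onRoot w hw a)) h1
      simpa only [smul_x, Pi.smul_apply, e_x, Pi.single_eq_same, smul_eq_mul, mul_one] using h3
    have hk0 : k a ≠ 0 := left_ne_zero_of_mul (by rw [hk.neg a]; exact one_ne_zero)
    have hζ0 : (ζ : K) ≠ 0 := Pool.Agent.Helper2.E8A.hζ.ne_zero (by norm_num)
    have h4 : (ζ : K) ^ (ht (w a.1) - 3 * ht a.1) = 1 := by
      rw [mul_comm (k a)] at h2
      have h5 := mul_right_cancel₀ hk0 h2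
      rw [zpow_sub₀ hζ0, ← h5, zpow_mul, show ((3 : ℤ)) = ((3 : ℕ) : ℤ) from rfl, zpow_natCast]
      exact div_self (zpow_ne_zero _ (pow_ne_zero _ hζ0))
    have h6 := (Pool.Agent.Helper2.E8A.hζ.zpow_eq_one_iff_dvd _).1 h4
    have h7 := (ZMod.intCast_zmod_eq_zero_iff_dvd (ht (w a.1) - 3 * ht a.1) 31).2 (by exact_mod_cast h6)
    push_cast at h7
    exact sub_eq_zero.1 h7
  have hall : ∀ x : Lat, ((ht (w x) : ℤ) : ZMod 31) = 3 * (ht x : ℤ) := by
    let F : Lat →+ ZMod 31 :=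
      { toFun := fun x => ((ht (w x) : ℤ) : ZMod 31)
        map_zero' := by
          rw [map_zero]
          simp [ht]
        map_add' := by
          intro x y
          rw [_root_.map_add, ht_add]
          push_cast
          rfl }
    let G : Lat →+ ZMod 31 :=
      { toFun := fun x => 3 * ((ht x : ℤ) : ZMod 31)
        map_zero' := by simp [ht]
        map_add' := by
          intro x y
          rw [ht_add]
          push_cast
          ring }
    have hFG : F = G := lat_hom_ext F G fun i => hroot (sr i)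
    intro x
    exact DFunLike.congr_fun hFG x
  obtain rfl := eq_W w hw hall
  obtain ⟨u, hu⟩ := isCoc_factor W k hk η hη
  refine ⟨u, fun y => ?_⟩
  rw [hT y]
  have h1 : k = fun a => ((η a.1 : ℤ) : K) * (u (Multiplicative.ofAdd a.1) : K) := funext hu
  rw [h1]
  rfl

theorem exists_norm {f : K ⊗[ℤ] L ≃ₗ⁅K⁆ Chev K} {g : L ≃ₗ⁅ℤ⁆ L} (hfg : ∀ y : L, f (1 ⊗ₜ g y) = gz ζ (f (1 ⊗ₜ y)))
    {η : Lat → ℤˣ} (hη : IsLift W η) :
    ∃ (f' : K ⊗[ℤ] L ≃ₗ⁅K⁆ Chev K) (u : Multiplicative Lat →* Kˣ), (∀ y : L, f' (1 ⊗ₜ g y) = gz ζ (f' (1 ⊗ₜ y))) ∧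
      IsTT f' η u ∧ ∀ k : ℕ, k < 7 → u (Multiplicative.ofAdd (W^[k] (al 0))) = 1 := by
  obtain ⟨u, hu⟩ := exists_TT hfg hη
  let ξ : ℕ → Kˣ := fun n => Nat.rec (1 : Kˣ)
    (fun k x => Units.map (σ : K →* K) x * (u (Multiplicative.ofAdd (W^[k] (al 0))))⁻¹) n
  have hξ : ∀ k, ξ (k + 1) = Units.map (σ : K →* K) (ξ k) * (u (Multiplicative.ofAdd (W^[k] (al 0))))⁻¹ :=
    fun k => rfl
  obtain ⟨X, hX⟩ := exists_hom_bk (fun k : Fin 8 => ξ k)
  have hX' : ∀ k : ℕ, k < 8 → X (Multiplicative.ofAdd (W^[k] (al 0))) = ξ k := fun k hk => hX ⟨k, hk⟩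
  let u' : Multiplicative Lat →* Kˣ :=
    u * X.comp (AddMonoidHom.toMultiplicative (W : Lat →+ Lat)) * ((Units.map (σ : K →* K)).comp X)⁻¹
  have hu' : ∀ x : Lat, u' (Multiplicative.ofAdd x) = u (Multiplicative.ofAdd x) *
      X (Multiplicative.ofAdd (W x)) * (Units.map (σ : K →* K) (X (Multiplicative.ofAdd x)))⁻¹ := fun x => rfl
  refine ⟨resc X f, u', gz_resc hfg X, TT_resc hu X u' (fun x => ?_), fun k hk => ?_⟩
  · have h1 : u' (Multiplicative.ofAdd x) * Units.map (σ : K →* K) (X (Multiplicative.ofAdd x)) =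
        u (Multiplicative.ofAdd x) * X (Multiplicative.ofAdd (W x)) := by
      rw [hu', inv_mul_cancel_right]
    exact congrArg (fun z : Kˣ => (z : K)) h1
  · rw [hu', ← Function.iterate_succ_apply' W k (al 0), hX' (k + 1) (by omega), hX' k (by omega), hξ,
      mul_comm (Units.map (σ : K →* K) (ξ k)), mul_inv_cancel_left, mul_inv_cancel]

end Pool.Agent.Helper73.E8
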