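import Pool.Agent.Helper73.E8.Int.Div
import Pool.Agent.Helper73.E8.Int.Norm

/-!
# Block E8-DEL: the relation `Φ(T) a = - (c)` away from `P0`

Let `u` be normalised: `u (W^k α_0) = 1` for `k < 7`, `c = u (W^7 α_0)`. For `v ≠ P0`: `(Φ(T) a) v = dv (-ĉ) v`, `a = dI (IA f (sr 0))`.

Proof. Let `V' = {v // v ≠ P0}` and `G = Multiplicative (V' → ℤ)`. By `dI_IA_add`, `dI_IA_neg` the function
`a ↦ (v ↦ dI (IA f a) v)` on the roots satisfies the hypotheses of `hom_ext`: there is a homomorphism `δ : Lat → (V' → ℤ)` with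
`δ a = dI (IA f a)` on `V'` for all roots. `T` acts on `V' → ℤ` as well (`sV P0 = P0`: `sV_P0`; `(T d) (sV v) = d v`: `T_sV`). By
`dI_IA_TT`: `δ (W a) = T (δ a) + dv (u a)` for roots `a` (the sign `η a` has divisor 0), so for all `x ∈ Lat` by additivity:
`δ (W x) = T (δ x) + dv (u x)`. Hence with `b_k = W^k α_0`: `δ b_(k+1) = T (δ b_k)` for `k < 7`, so `δ b_k = T^k a` for `k ≤ 7`, and
`δ b_8 = T^8 a + dv c`. By `W_phi`, `b_8 = -(b_7 - b_5 - b_4 - b_3 + b_1 + b_0)`, so `T^8 a + dv c = -(T^7 - T^5 - T^4 - T^3 + T + 1) a`.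
`extend_delta` (for later use): `dI (IA f a) v = 0` for all `v ≠ P0` and all roots `a` if `δ b_k = 0` for all `k < 8`, i.e. if
`dI (IA f (W^k α_0)) v = 0` for `k < 8`.
-/

set_option autoImplicit false

open scoped TensorProduct

namespace Pool.Agent.Helper73.E8

open Chev NumberField Polynomial
open Pool.Agent.Helper2.E8A (K ζ σ FI dI dv P0 V D T S Φ)

variable {L : Type} [LieRing L] [Module.Free ℤ L] [Module.Finite ℤ L] {B : LinearMap.BilinForm ℤ L}

private theorem sV_ne73 {w : V} (h : Pool.Agent.Helper2.E8A.sV w ≠ P0) : w ≠ P0 := by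
  rintro rfl
  exact h Pool.Agent.Helper2.E8A.sV_P0

private theorem exists_delta73 (hL : IsLat L B) {f : K ⊗[ℤ] L ≃ₗ⁅K⁆ Chev K} {g : L ≃ₗ⁅ℤ⁆ L}
    (hfg : ∀ y : L, f (1 ⊗ₜ g y) = gz ζ (f (1 ⊗ₜ y))) :
    ∃ δ : V → (Multiplicative Lat →* Multiplicative ℤ), ∀ v : V, v ≠ P0 → ∀ a : Root,
      Multiplicative.ofAdd (dI (IA f a) v) = δ v (Multiplicative.ofAdd a.1) := by
  have h1 : ∀ v : V, ∃ δ : Multiplicative Lat →* Multiplicative ℤ, v ≠ P0 → ∀ a : Root,
      Multiplicative.ofAdd (dI (IA f a) v) = δ (Multiplicative.ofAdd a.1) := by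
    intro v
    by_cases hv : v = P0
    · exact ⟨1, fun h => absurd hv h⟩
    · obtain ⟨δ, hδ⟩ := hom_ext (fun a => Multiplicative.ofAdd (dI (IA f a) v))
        (fun a b c h => by
          change Multiplicative.ofAdd _ = Multiplicative.ofAdd _ * Multiplicative.ofAdd _
          rw [dI_IA_add hL hfg a b c h hv, ofAdd_add])
        (fun a => by
          change Multiplicative.ofAdd _ = (Multiplicative.ofAdd _)⁻¹
          rw [dI_IA_neg hL hfg a hv, ofAdd_neg])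
      exact ⟨δ, fun _ => hδ⟩
  choose δ hδ using h1
  exact ⟨δ, hδ⟩

private theorem dv_sign73 (s : ℤˣ) (u : Kˣ) :
    dv (Additive.ofMul (Units.map (Int.castRingHom K : ℤ →* K) s * u)) = dv (Additive.ofMul u) := by
  have h1 : dv (Additive.ofMul (Units.map (Int.castRingHom K : ℤ →* K) s)) = 0 := by
    refine Pool.Agent.Helper2.E8A.dv_of_unit (Units.map (Int.castRingHom (𝓞 K) : ℤ →* 𝓞 K) s) ?_
    change (((((s : ℤ) : 𝓞 K)) : 𝓞 K) : K) = ((s : ℤ) : K)
    exact map_intCast (algebraMap (𝓞 K) K) _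
  rw [ofMul_mul, _root_.map_add, h1, zero_add]

private theorem delta_W73 (hL : IsLat L B) {f : K ⊗[ℤ] L ≃ₗ⁅K⁆ Chev K}
    {η : Lat → ℤˣ} {u : Multiplicative Lat →* Kˣ} (h : IsTT f η u)
    (δ : V → (Multiplicative Lat →* Multiplicative ℤ)) (hδ : ∀ v : V, v ≠ P0 → ∀ a : Root,
      Multiplicative.ofAdd (dI (IA f a) v) = δ v (Multiplicative.ofAdd a.1)) (w : V)
    (hw : Pool.Agent.Helper2.E8A.sV w ≠ P0) (x : Lat) :
    Multiplicative.toAdd (δ (Pool.Agent.Helper2.E8A.sV w) (Multiplicative.ofAdd (W x))) =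
      Multiplicative.toAdd (δ w (Multiplicative.ofAdd x)) +
        dv (Additive.ofMul (u (Multiplicative.ofAdd x))) (Pool.Agent.Helper2.E8A.sV w) := by
  have hroot : ∀ a : Root,
      Multiplicative.toAdd (δ (Pool.Agent.Helper2.E8A.sV w) (Multiplicative.ofAdd (W a.1))) =
      Multiplicative.toAdd (δ w (Multiplicative.ofAdd a.1)) +
        dv (Additive.ofMul (u (Multiplicative.ofAdd a.1))) (Pool.Agent.Helper2.E8A.sV w) := by
    intro a
    have h1 := dI_IA_TT hL (f := f)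
      (fun a => Units.map (Int.castRingHom K : ℤ →* K) (η a.1) * u (Multiplicative.ofAdd a.1)) h a
    have h2 := hδ _ hw (onRoot W W_isom a)
    have h3 := hδ w (sV_ne73 hw) a
    rw [onRoot_val] at h2
    rw [← h2, ← h3, toAdd_ofAdd, toAdd_ofAdd, h1, Finsupp.add_apply, Pool.Agent.Helper2.E8A.T_sV,
      dv_sign73]
  let A1 : Lat →+ ℤ :=
    { toFun := fun x => Multiplicative.toAdd (δ (Pool.Agent.Helper2.E8A.sV w) (Multiplicative.ofAdd (W x)))
      map_zero' := by rw [_root_.map_zero, ofAdd_zero, MonoidHom.map_one, toAdd_one]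
      map_add' := fun x y => by rw [_root_.map_add, ofAdd_add, MonoidHom.map_mul, toAdd_mul] }
  let A2 : Lat →+ ℤ :=
    { toFun := fun x => Multiplicative.toAdd (δ w (Multiplicative.ofAdd x)) +
        dv (Additive.ofMul (u (Multiplicative.ofAdd x))) (Pool.Agent.Helper2.E8A.sV w)
      map_zero' := by
        rw [ofAdd_zero, MonoidHom.map_one, MonoidHom.map_one, toAdd_one, ofMul_one, _root_.map_zero, Finsupp.zero_apply,
          add_zero]
      map_add' := fun x y => by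
        rw [ofAdd_add, MonoidHom.map_mul, MonoidHom.map_mul, toAdd_mul, ofMul_mul, _root_.map_add, Finsupp.add_apply]
        abel }
  have h4 : A1 = A2 := lat_hom_ext _ _ fun i => hroot (sr i)
  exact DFunLike.congr_fun h4 x

/-- `δ b_k = T^k a` as long as `u b_j = 1` for `j < k`. -/
private theorem delta_bk73 (hL : IsLat L B) {f : K ⊗[ℤ] L ≃ₗ⁅K⁆ Chev K}
    {η : Lat → ℤˣ} {u : Multiplicative Lat →* Kˣ} (h : IsTT f η u)
    (δ : V → (Multiplicative Lat →* Multiplicative ℤ)) (hδ : ∀ v : V, v ≠ P0 → ∀ a : Root,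
      Multiplicative.ofAdd (dI (IA f a) v) = δ v (Multiplicative.ofAdd a.1)) (k : ℕ)
    (hu : ∀ j : ℕ, j < k → u (Multiplicative.ofAdd (W^[j] (al 0))) = 1) :
    ∀ v : V, v ≠ P0 → Multiplicative.toAdd (δ v (Multiplicative.ofAdd (W^[k] (al 0)))) =
      ((T ^ k) (dI (IA f (sr 0)))) v := by
  induction k with
  | zero =>
    intro v hv
    have h1 := hδ v hv (sr 0)
    change Multiplicative.toAdd (δ v (Multiplicative.ofAdd (sr 0).1)) = dI (IA f (sr 0)) v
    rw [← h1, toAdd_ofAdd]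
  | succ k ih =>
    intro v hv
    obtain ⟨w, rfl⟩ := Pool.Agent.Helper2.E8A.sV.surjective v
    rw [Function.iterate_succ_apply', delta_W73 hL h δ hδ w hv, hu k (Nat.lt_succ_self k), ofMul_one, _root_.map_zero,
      Finsupp.zero_apply, add_zero, ih (fun j hj => hu j (hj.trans (Nat.lt_succ_self k))) w (sV_ne73 hv),
      pow_succ', Module.End.mul_apply, Pool.Agent.Helper2.E8A.T_sV]

private theorem delta_phi73 (d : Multiplicative Lat →* Multiplicative ℤ) (x : Lat) :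
    Multiplicative.toAdd (d (Multiplicative.ofAdd (W^[8] x))) + Multiplicative.toAdd (d (Multiplicative.ofAdd (W^[7] x))) -
    Multiplicative.toAdd (d (Multiplicative.ofAdd (W^[5] x))) - Multiplicative.toAdd (d (Multiplicative.ofAdd (W^[4] x))) -
    Multiplicative.toAdd (d (Multiplicative.ofAdd (W^[3] x))) + Multiplicative.toAdd (d (Multiplicative.ofAdd (W^[1] x))) +
    Multiplicative.toAdd (d (Multiplicative.ofAdd (W^[0] x))) = 0 := by
  have h1 : W^[8] x + W^[7] x - W^[5] x - W^[4] x - W^[3] x + W^[1] x + W^[0] x = 0 := W_phi x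
  have h2 := congrArg (fun z => Multiplicative.toAdd (d (Multiplicative.ofAdd z))) h1
  simpa only [ofAdd_add, ofAdd_sub, _root_.map_mul, _root_.map_div, toAdd_mul, toAdd_div, ofAdd_zero, _root_.map_one,
    toAdd_one] using h2

theorem phi_div (hL : IsLat L B) {f : K ⊗[ℤ] L ≃ₗ⁅K⁆ Chev K} {g : L ≃ₗ⁅ℤ⁆ L}
    (hfg : ∀ y : L, f (1 ⊗ₜ g y) = gz ζ (f (1 ⊗ₜ y))) {η : Lat → ℤˣ} {u : Multiplicative Lat →* Kˣ}
    (h : IsTT f η u) (hu : ∀ k : ℕ, k < 7 → u (Multiplicative.ofAdd (W^[k] (al 0))) = 1) (v : V) (hv : v ≠ P0) :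
    (aeval T Φ (dI (IA f (sr 0)))) v = dv (-(Additive.ofMul (u (Multiplicative.ofAdd (W^[7] (al 0)))))) v := by
  obtain ⟨δ, hδ⟩ := exists_delta73 hL hfg
  have hk : ∀ k : ℕ, k ≤ 7 → ∀ v : V, v ≠ P0 →
      Multiplicative.toAdd (δ v (Multiplicative.ofAdd (W^[k] (al 0)))) = ((T ^ k) (dI (IA f (sr 0)))) v :=
    fun k hk => delta_bk73 hL h δ hδ k fun j hj => hu j (lt_of_lt_of_le hj hk)
  have h8 : Multiplicative.toAdd (δ v (Multiplicative.ofAdd (W^[8] (al 0)))) =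
      ((T ^ 8) (dI (IA f (sr 0)))) v + dv (Additive.ofMul (u (Multiplicative.ofAdd (W^[7] (al 0))))) v := by
    obtain ⟨w, rfl⟩ := Pool.Agent.Helper2.E8A.sV.surjective v
    rw [Function.iterate_succ_apply', delta_W73 hL h δ hδ w hv, hk 7 le_rfl w (sV_ne73 hv),
      pow_succ' T 7, Module.End.mul_apply, Pool.Agent.Helper2.E8A.T_sV]
  have h9 := delta_phi73 (δ v) (al 0)
  rw [h8, hk 7 (by norm_num) v hv, hk 5 (by norm_num) v hv, hk 4 (by norm_num) v hv, hk 3 (by norm_num) v hv,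
    hk 1 (by norm_num) v hv, hk 0 (by norm_num) v hv] at h9
  have h10 : (aeval T Φ (dI (IA f (sr 0)))) v = ((T ^ 8) (dI (IA f (sr 0)))) v + ((T ^ 7) (dI (IA f (sr 0)))) v -
      ((T ^ 5) (dI (IA f (sr 0)))) v - ((T ^ 4) (dI (IA f (sr 0)))) v - ((T ^ 3) (dI (IA f (sr 0)))) v +
      ((T ^ 1) (dI (IA f (sr 0)))) v + ((T ^ 0) (dI (IA f (sr 0)))) v := by
    unfold Φ
    simp only [_root_.map_add, _root_.map_sub, _root_.map_pow, aeval_X, _root_.map_one, LinearMap.add_apply, LinearMap.sub_apply,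
      Finsupp.add_apply, Finsupp.sub_apply, pow_one, pow_zero]
  rw [h10, _root_.map_neg, Finsupp.neg_apply]
  linarith

theorem div_eq_zero (hL : IsLat L B) {f : K ⊗[ℤ] L ≃ₗ⁅K⁆ Chev K} {g : L ≃ₗ⁅ℤ⁆ L}
    (hfg : ∀ y : L, f (1 ⊗ₜ g y) = gz ζ (f (1 ⊗ₜ y))) {η : Lat → ℤˣ} (h : IsTT f η 1)
    (h0 : ∀ v : V, v ≠ P0 → dI (IA f (sr 0)) v = 0) (a : Root) (v : V) (hv : v ≠ P0) : dI (IA f a) v = 0 := by
  obtain ⟨δ, hδ⟩ := exists_delta73 hL hfg
  have hT : ∀ k : ℕ, ∀ v : V, v ≠ P0 → ((T ^ k) (dI (IA f (sr 0)))) v = 0 := by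
    intro k
    induction k with
    | zero => exact h0
    | succ k ih =>
      intro v hv
      obtain ⟨w, rfl⟩ := Pool.Agent.Helper2.E8A.sV.surjective v
      rw [pow_succ', Module.End.mul_apply, Pool.Agent.Helper2.E8A.T_sV]
      exact ih w (sV_ne73 hv)
  have h1 : δ v = 1 := by
    refine hom_unique_bk _ _ fun k => ?_
    apply Multiplicative.toAdd.injective
    rw [delta_bk73 hL h δ hδ k (fun _ _ => rfl) v hv, hT k v hv]
    rfl
  have h2 := hδ v hv a
  rw [h1] at h2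
  exact Multiplicative.ofAdd.injective h2

end Pool.Agent.Helper73.E8
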