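import Pool.Agent.Helper73.E8.Int.Eig

/-!
# Block E8-DIV: the divisors of the fractional ideals `IA f a`

* `mem_IA`, `IA_ne_zero`: the set `{x : InM f (x • e a)}` is an `𝓞 K`-submodule of `K` (`inM_add`, `inM_smul`), non-zero (`inM_mul_exists`);
  it is fractional: choose `y₀ ∈ M` with `y₀.x (-a) = s ≠ 0` (a multiple of `e_(-a)`); for `x` in the set, `bf (x • e a) y₀ = - x s` is
  integral (`inM_dual`).
* `dI_IA_neg` (`v ≠ P0`). Let `J` be the fractional ideal generated by (equal to the set of) all `y.x a`, `y ∈ M`: an `𝓞 K`-module,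
  contained in a fractional one (`y.x a * x'` is integral for `x' ∈ IA f (-a)`, see below), non-zero. `x' ∈ IA f (-a)` iff
  `bf (x' • e (-a)) y = - x' y.x a` is integral for all `y ∈ M` (`inM_dual`) iff `x' J ⊆ 𝓞 K`; so `IA f (-a) = J⁻¹`, and
  `dI (IA f (-a)) = - dI J` (`dI_inv`). `IA f a ⊆ J`, so `dI J v ≤ dI (IA f a) v` (`dI_mono`); and `31^n J ⊆ IA f a` (`inM_proj`), so
  `dI (IA f a) v ≤ dI J v` for `v ≠ P0` (`dI_away`).
* `dI_IA_add`: `[x e_a, y e_b] = ± x y e_d`, so `IA f a * IA f b ≤ IA f d`: `dI (IA f d) v ≤ dI (IA f a) v + dI (IA f b) v` (`dI_mul`,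
  `dI_mono`). The same for `a = d + (-b)`: `dI (IA f a) v ≤ dI (IA f d) v + dI (IA f (-b)) v = dI (IA f d) v - dI (IA f b) v`.
* `dI_IA_TT`: if `TT f = mono σ W k`: `TT f (x • e a) = (σ x * k a) • e (W a)`, and `InM f (TT f y) ↔ InM f y` (`inM_TT`): `x ∈ IA f a ↔
  σ x * k a ∈ IA f (W a)`. Apply `dI_map` with `J = (k a)⁻¹ IA f (W a)`; `dI_span`, `dI_mul`.
* `dI_resc`: `InM (resc X f) y ↔ InM f (X⁻¹ y)`, so `x ∈ IA (resc X f) a ↔ X(a)⁻¹ x ∈ IA f a`.
-/

set_option autoImplicit false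

open scoped TensorProduct

namespace Pool.Agent.Helper73.E8

open Chev NumberField
open Pool.Agent.Helper2.E8A (K ζ σ FI dI dv P0 V D T S)

variable {L : Type} [LieRing L] [Module.Free ℤ L] [Module.Finite ℤ L] {B : LinearMap.BilinForm ℤ L}

private theorem bf_e67 (a : Root) (y : Chev K) : bf (e a) y = -y.x (-a) := by
  unfold bf
  simp only [e_h, e_x, Pi.zero_apply, zero_mul, Finset.sum_const_zero, zero_sub]
  rw [Finset.sum_eq_single a]
  · rw [Pi.single_eq_same, one_mul]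
  · intro c _ hc
    rw [Pi.single_eq_of_ne hc, zero_mul]
  · intro h
    exact absurd (Finset.mem_univ _) h

private theorem one67 {z : K} : z ∈ (1 : FI) ↔ IsIntegral ℤ z := by
  rw [FractionalIdeal.mem_one_iff]
  constructor
  · rintro ⟨r, rfl⟩
    exact r.isIntegral_coe
  · intro h
    exact ⟨⟨z, h⟩, rfl⟩

private theorem exists_FI67 (P : K → Prop) (h0 : P 0) (ha : ∀ x y, P x → P y → P (x + y))
    (hs : ∀ (r : 𝓞 K) (x : K), P x → P ((r : K) * x)) (n : ℕ) (hn : 0 < n)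
    (h : ∀ x, P x → IsIntegral ℤ ((n : K) * x)) : ∃ I : FI, ∀ x, x ∈ I ↔ P x := by
  let N : Submodule (𝓞 K) K :=
    { carrier := {x | P x}
      add_mem' := fun {x y} hx hy => ha x y hx hy
      zero_mem' := h0
      smul_mem' := fun r x hx => by
        change P (r • x)
        rw [Algebra.smul_def]
        exact hs r x hx }
  have hfr : IsFractional (nonZeroDivisors (𝓞 K)) N := by
    refine ⟨(n : 𝓞 K), mem_nonZeroDivisors_iff_ne_zero.2 (by exact_mod_cast hn.ne'), fun x hx => ?_⟩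
    refine ⟨⟨(n : K) * x, h x hx⟩, ?_⟩
    rw [Algebra.smul_def, map_natCast]
    rfl
  exact ⟨⟨N, hfr⟩, fun x => Iff.rfl⟩

private theorem ne_zero67 {I : FI} {n : ℕ} (hn : 0 < n) (h : (n : K) ∈ I) : I ≠ 0 := by
  intro h0
  rw [h0, FractionalIdeal.mem_zero_iff] at h
  exact hn.ne' (by exact_mod_cast h)

private theorem span_ne67 (u : Kˣ) : FractionalIdeal.spanSingleton (nonZeroDivisors (𝓞 K)) (u : K) ≠ 0 :=
  FractionalIdeal.spanSingleton_ne_zero_iff.mpr (Units.ne_zero _)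

private theorem dI_span67 (u : Kˣ) (I : FI) (hI : I ≠ 0) :
    dI (FractionalIdeal.spanSingleton (nonZeroDivisors (𝓞 K)) (u : K) * I) = dv (Additive.ofMul u) + dI I := by
  rw [Pool.Agent.Helper2.E8A.dI_mul (span_ne67 u) hI]
  rfl

theorem mem_IA (hL : IsLat L B) (f : K ⊗[ℤ] L ≃ₗ⁅K⁆ Chev K) (a : Root) (x : K) : x ∈ IA f a ↔ InM f (x • e a) := by
  have key : ∃ I : FI, ∀ x : K, x ∈ I ↔ InM f (x • e a) := by
    obtain ⟨n, hn, hne⟩ := inM_mul_exists f (e (-a))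
    refine exists_FI67 (fun x => InM f (x • e a)) ?_ ?_ ?_ n hn ?_
    · rw [zero_smul]
      exact inM_zero f
    · intro x y hx hy
      rw [add_smul]
      exact inM_add hx hy
    · intro r x hx
      rw [mul_smul]
      exact inM_smul r.isIntegral_coe hx
    · intro x hx
      have h1 := (inM_dual f hL (x • e a)).1 hx _ hne
      rw [bf_smul_left, bf_smul_right, bf_e67, e_x, Pi.single_eq_same] at h1
      have h2 : x * ((n : K) * -1) = -((n : K) * x) := by ring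
      rw [h2] at h1
      have h3 := h1.neg
      rwa [neg_neg] at h3
  unfold IA
  rw [dif_pos key]
  exact key.choose_spec x

theorem IA_ne_zero (hL : IsLat L B) (f : K ⊗[ℤ] L ≃ₗ⁅K⁆ Chev K) (a : Root) : IA f a ≠ 0 := by
  obtain ⟨n, hn, hne⟩ := inM_mul_exists f (e a)
  exact ne_zero67 hn ((mem_IA hL f a _).2 hne)

theorem dI_IA_neg (hL : IsLat L B) {f : K ⊗[ℤ] L ≃ₗ⁅K⁆ Chev K} {g : L ≃ₗ⁅ℤ⁆ L}
    (hfg : ∀ y : L, f (1 ⊗ₜ g y) = gz ζ (f (1 ⊗ₜ y))) (a : Root) {v : V} (hv : v ≠ P0) :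
    dI (IA f (-a)) v = -dI (IA f a) v := by
  have hJe : ∃ J : FI, ∀ x : K, x ∈ J ↔ ∃ y : Chev K, InM f y ∧ y.x a = x := by
    obtain ⟨n, hn, hne⟩ := inM_mul_exists f (e (-a))
    refine exists_FI67 (fun x => ∃ y : Chev K, InM f y ∧ y.x a = x) ?_ ?_ ?_ n hn ?_
    · exact ⟨0, inM_zero f, rfl⟩
    · rintro x y ⟨y1, h1, rfl⟩ ⟨y2, h2, rfl⟩
      exact ⟨y1 + y2, inM_add h1 h2, by rw [add_x]; rfl⟩
    · rintro r x ⟨y, h, rfl⟩
      exact ⟨(r : K) • y, inM_smul r.isIntegral_coe h, by rw [smul_x]; rfl⟩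
    · rintro x ⟨y, h, rfl⟩
      have h1 := (inM_dual f hL y).1 h _ hne
      rw [bf_comm, bf_smul_left, bf_e67, neg_neg] at h1
      have h3 := h1.neg
      rwa [mul_neg, neg_neg] at h3
  obtain ⟨J, hJ⟩ := hJe
  have hJ0 : J ≠ 0 := by
    obtain ⟨n, hn, hne⟩ := inM_mul_exists f (e a)
    exact ne_zero67 hn ((hJ _).2 ⟨_, hne, by simp⟩)
  have h1 : IA f (-a) = J⁻¹ := by
    ext x'
    rw [mem_IA hL, FractionalIdeal.mem_inv_iff hJ0, inM_dual f hL]
    constructor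
    · intro h w hw
      obtain ⟨y, hy, rfl⟩ := (hJ w).1 hw
      have h2 := h y hy
      rw [bf_smul_left, bf_e67, neg_neg] at h2
      rw [one67]
      have h3 := h2.neg
      rwa [mul_neg, neg_neg] at h3
    · intro h z hz
      rw [bf_smul_left, bf_e67, neg_neg, mul_neg]
      exact (one67.1 (h _ ((hJ _).2 ⟨z, hz, rfl⟩))).neg
  have h2 : dI J v ≤ dI (IA f a) v := by
    refine Pool.Agent.Helper2.E8A.dI_mono (IA_ne_zero hL f a) (fun x hx => ?_) v
    exact (hJ x).2 ⟨x • e a, (mem_IA hL f a x).1 hx, by simp⟩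
  have h3 : dI (IA f a) v ≤ dI J v := by
    obtain ⟨n, hn⟩ := inM_proj hL hfg a
    refine Pool.Agent.Helper2.E8A.dI_away hJ0 (fun x hx => ?_) hv
    obtain ⟨y, hy, rfl⟩ := (hJ x).1 hx
    exact ⟨n, (mem_IA hL f a _).2 (hn y hy)⟩
  rw [h1, Pool.Agent.Helper2.E8A.dI_inv, Finsupp.neg_apply, le_antisymm h2 h3]

theorem dI_IA_add (hL : IsLat L B) {f : K ⊗[ℤ] L ≃ₗ⁅K⁆ Chev K} {g : L ≃ₗ⁅ℤ⁆ L}
    (hfg : ∀ y : L, f (1 ⊗ₜ g y) = gz ζ (f (1 ⊗ₜ y))) (a b d : Root) (h : d.1 = a.1 + b.1) {v : V} (hv : v ≠ P0) :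
    dI (IA f d) v = dI (IA f a) v + dI (IA f b) v := by
  have hmul : ∀ a b d : Root, d.1 = a.1 + b.1 → IA f a * IA f b ≤ IA f d := by
    intro a b d h
    rw [FractionalIdeal.mul_le]
    intro x hx y hy
    rw [mem_IA hL] at hx hy ⊢
    have h1 := inM_lie hx hy
    rw [smul_lie, lie_smul, lie_e_e_add h] at h1
    have h3 : ((eps a.1 b.1 : ℤ) : K) * ((eps a.1 b.1 : ℤ) : K) = 1 := by
      have h4 := congrArg (fun u : ℤˣ => ((u : ℤ) : K)) (Int.units_mul_self (eps a.1 b.1))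
      simpa only [Units.val_mul, Int.cast_mul, Units.val_one, Int.cast_one] using h4
    have h2 := inM_smul (r := ((eps a.1 b.1 : ℤ) : K)) (by
      have h5 : IsIntegral ℤ (algebraMap ℤ K (eps a.1 b.1 : ℤ)) := isIntegral_algebraMap
      rwa [eq_intCast] at h5) h1
    simp only [smul_smul] at h2
    have h6 : ((eps a.1 b.1 : ℤ) : K) * (x * (y * ((eps a.1 b.1 : ℤ) : K))) = x * y := by
      linear_combination x * y * h3
    rwa [h6] at h2
  have hlow : ∀ a b d : Root, d.1 = a.1 + b.1 → dI (IA f d) v ≤ dI (IA f a) v + dI (IA f b) v := by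
    intro a b d h
    have h1 := Pool.Agent.Helper2.E8A.dI_mono (mul_ne_zero (IA_ne_zero hL f a) (IA_ne_zero hL f b)) (hmul a b d h) v
    rwa [Pool.Agent.Helper2.E8A.dI_mul (IA_ne_zero hL f a) (IA_ne_zero hL f b), Finsupp.add_apply] at h1
  have h1 := hlow a b d h
  have h2 := hlow d (-b) a (by rw [neg_val, h]; abel)
  rw [dI_IA_neg hL hfg b hv] at h2
  exact le_antisymm h1 (by linarith)

theorem dI_IA_TT (hL : IsLat L B) {f : K ⊗[ℤ] L ≃ₗ⁅K⁆ Chev K} (k : Root → Kˣ)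
    (hk : ∀ y, TT f y = mono (σ : K →+* K) W W_isom (fun a => (k a : K)) y) (a : Root) :
    dI (IA f (onRoot W W_isom a)) = T (dI (IA f a)) + dv (Additive.ofMul (k a)) := by
  have hkey : ∀ x : K, x ∈ IA f a ↔
      σ x ∈ FractionalIdeal.spanSingleton (nonZeroDivisors (𝓞 K)) (((k a)⁻¹ : Kˣ) : K) * IA f (onRoot W W_isom a) := by
    intro x
    rw [mem_IA hL, ← inM_TT, hk, mono_smul, mono_e, smul_smul, ← mem_IA hL, FractionalIdeal.mem_singleton_mul]
    change σ x * (k a : K) ∈ IA f (onRoot W W_isom a) ↔ _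
    constructor
    · intro h
      refine ⟨_, h, ?_⟩
      rw [mul_comm (σ x), ← mul_assoc, Units.inv_mul, one_mul]
    · rintro ⟨y, hy, hxy⟩
      rw [hxy, mul_comm _ y, mul_assoc, Units.inv_mul, mul_one]
      exact hy
  have h0 : FractionalIdeal.spanSingleton (nonZeroDivisors (𝓞 K)) (((k a)⁻¹ : Kˣ) : K) *
      IA f (onRoot W W_isom a) ≠ 0 := mul_ne_zero (span_ne67 _) (IA_ne_zero hL f _)
  have h1 := Pool.Agent.Helper2.E8A.dI_map (IA_ne_zero hL f a) h0 hkey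
  rw [dI_span67 _ _ (IA_ne_zero hL f _), ofMul_inv, map_neg] at h1
  rw [← h1]
  abel

theorem dI_resc (hL : IsLat L B) (f : K ⊗[ℤ] L ≃ₗ⁅K⁆ Chev K) (X : Multiplicative Lat →* Kˣ) (a : Root) :
    dI (IA (resc X f) a) = dI (IA f a) + dv (Additive.ofMul (X (Multiplicative.ofAdd a.1))) := by
  have hone : ∀ x : K, InM (resc X f) (x • e a) ↔
      InM f (((((X (Multiplicative.ofAdd a.1))⁻¹ : Kˣ) : K) * x) • e a) := by
    intro x
    have h1 : ∀ y : K, monoEquiv (AddEquiv.refl Lat) isIsom_refl _ (isCoc_torus X)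
        (((((X (Multiplicative.ofAdd a.1))⁻¹ : Kˣ) : K) * y) • (e a : Chev K)) = y • e a := by
      intro y
      rw [monoEquiv_apply, mono_smul, mono_e, smul_smul, RingHom.id_apply]
      have h2 : onRoot (AddEquiv.refl Lat) isIsom_refl a = a := root_ext rfl
      rw [h2, mul_comm _ y, mul_assoc, Units.inv_mul, mul_one]
    constructor
    · rintro ⟨z, hz⟩
      refine ⟨z, ?_⟩
      exact (monoEquiv (AddEquiv.refl Lat) isIsom_refl _ (isCoc_torus X)).injective (hz.trans (h1 x).symm)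
    · rintro ⟨z, hz⟩
      refine ⟨z, ?_⟩
      rw [← h1 x, ← hz]
      rfl
  have h2 : IA (resc X f) a =
      FractionalIdeal.spanSingleton (nonZeroDivisors (𝓞 K)) ((X (Multiplicative.ofAdd a.1) : Kˣ) : K) * IA f a := by
    ext x
    rw [mem_IA hL, hone, ← mem_IA hL, FractionalIdeal.mem_singleton_mul]
    constructor
    · intro h
      refine ⟨_, h, ?_⟩
      rw [← mul_assoc, Units.mul_inv, one_mul]
    · rintro ⟨y, hy, hxy⟩
      rw [hxy, ← mul_assoc, Units.inv_mul, one_mul]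
      exact hy
  rw [h2, dI_span67 _ _ (IA_ne_zero hL f a), add_comm]

end Pool.Agent.Helper73.E8
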