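import Pool.Agent.Helper73.E8.Int.Lm

/-!
# Block E8-EIG: the Cartan part of the lattice `M` and the projections to the root spaces, up to powers of 31

* `integral_pr`: let `c h ∈ M`, `λ = pr h a`. `e_a` is an eigenvector of `ad (c h)` with eigenvalue `λ` (`lie_c_e`). Choose `N > 0` with
  `N e_a ∈ M` (`inM_mul_exists`); then `λ^n N e_a ∈ M` for all `n` (`inM_lie`). Choose `N' > 0` with `N' e_(-a) ∈ M`; by `inM_dual`
  `bf (λ^n N e_a) (N' e_(-a)) = - N N' λ^n` is integral for all `n`. So `λ` is almost integral over the integrally closed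
  Noetherian domain `𝓞 K` (or: for every maximal ideal `v` the valuation of `λ` is `≥ - (v(N N'))/n` for all `n`; or: all
  `λ^n` are in the finitely generated `Z`-module `(N N')^-1 𝓞 K`, use `IsIntegral` via `Subalgebra`... `isIntegral_of_mem_of_FG` or
  `isIntegral_of_smul_mem_submodule`), so it is integral.
* `integral_h`: `h i` is an integer combination of the `pr h (al j)` (the Cartan matrix is invertible over `Z`, `CartanMatrix.E₈_det`,
  or `exists_of_functional` for the `i`-th coordinate).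
* `inM_31c`: `∑_{k < 31} gz^k y = 31 c (y.h)`: the `a`-component is `(∑_k ζ^(k ht a)) y.x a = 0` because `31 ∤ ht a`
  (`ht_root_ne_zero`, `abs_ht_root_le`), `ζ^(ht a)` is a primitive 31st root of unity. Use `inM_gz`, `inM_add`.
* `inM_t`: by `inM_dual` we need `bf (31 t v) z = pr (31 z.h) v` (symmetric form) integral for `z ∈ M`: `31 c (z.h) ∈ M` by `inM_31c`, so
  `31 z.h i` is integral by `integral_h`.
* `inM_proj`: fix `a`. For `y ∈ M`: `z = ∑_{k<31} ζ^(-k ht a) gz^k y = 31 ∑_{b : ht b ≡ ht a} y.x b • e b ∈ M` (no Cartan part since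
  `31 ∤ ht a`). For every root `b ≠ a` with `ht b ≡ ht a` mod 31 we have `b ≠ -a` (`31 ∤ 2 ht a`), so there is `v_b` with
  `(v_b, a - b) = 1` (`exists_ip_eq_one`); the operator `A_b = ad (31 t v_b) - 31 (v_b, b)` maps `M` to `M` (`inM_t`), kills `e_b` and
  multiplies `e_a` by `31 (v_b, a - b) = 31`; all `A_b` are diagonal in the `e_c`. Applying all of them to `z` gives
  `31^(m+1) y.x a • e a ∈ M`, `m` the number of such `b` (independent of `y`).
-/

set_option autoImplicit false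

open scoped TensorProduct

namespace Pool.Agent.Helper73.E8

open Chev NumberField
open Pool.Agent.Helper2.E8A (K ζ σ FI dI dv P0 V D)

variable {L : Type} [LieRing L] [Module.Free ℤ L] [Module.Finite ℤ L] {B : LinearMap.BilinForm ℤ L}

/-- `d x^n` integral for all `n` implies `x` integral. -/
private theorem isIntegral_of_almost15 {x : K} {d : ℕ} (hd : 0 < d) (h : ∀ n : ℕ, IsIntegral ℤ ((d : K) * x ^ n)) :
    IsIntegral ℤ x := by
  have hd0 : (d : K) ≠ 0 := by exact_mod_cast hd.ne'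
  have h1 : (Subalgebra.toSubmodule (Algebra.adjoin (𝓞 K) {x})) ≤ Submodule.span (𝓞 K) {((d : K))⁻¹} := by
    intro y hy
    rw [Subalgebra.mem_toSubmodule, Algebra.adjoin_singleton_eq_range_aeval] at hy
    obtain ⟨p, rfl⟩ := hy
    rw [Submodule.mem_span_singleton]
    have h2 : IsIntegral ℤ ((d : K) * Polynomial.aeval x p) := by
      rw [Polynomial.aeval_eq_sum_range, Finset.mul_sum]
      refine IsIntegral.sum _ fun i _ => ?_
      have h3 : (d : K) * (p.coeff i • x ^ i) = algebraMap (𝓞 K) K (p.coeff i) * ((d : K) * x ^ i) := by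
        rw [Algebra.smul_def]; ring
      rw [h3]
      exact (RingOfIntegers.isIntegral_coe _).mul (h i)
    refine ⟨⟨_, h2⟩, ?_⟩
    rw [Algebra.smul_def]
    change ((d : K) * Polynomial.aeval x p) * ((d : K))⁻¹ = Polynomial.aeval x p
    field_simp
  have h2 : (Subalgebra.toSubmodule (Algebra.adjoin (𝓞 K) {x})).FG :=
    Submodule.FG.of_le (Submodule.fg_span_singleton _) h1
  have h3 : IsIntegral (𝓞 K) x := IsIntegral.of_mem_of_fg _ h2 x (Algebra.subset_adjoin rfl)
  exact isIntegral_trans x h3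

theorem integral_pr (hL : IsLat L B) (f : K ⊗[ℤ] L ≃ₗ⁅K⁆ Chev K) (h : Fin 8 → K) (hh : InM f (c h)) (a : Root) :
    IsIntegral ℤ (pr h a.1) := by
  obtain ⟨N, hN, hN'⟩ := inM_mul_exists f (e a)
  obtain ⟨N', hN2, hN2'⟩ := inM_mul_exists f (e (-a))
  have h1 : ∀ n : ℕ, InM f ((pr h a.1 ^ n * (N : K)) • e a) := by
    intro n
    induction n with
    | zero => rw [pow_zero, one_mul]; exact hN'
    | succ n ih =>
      have h2 := inM_lie hh ih
      rw [lie_smul, lie_c_e, smul_smul] at h2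
      have h3 : pr h a.1 ^ (n + 1) * (N : K) = pr h a.1 ^ n * (N : K) * pr h a.1 := by ring
      rw [h3]; exact h2
  have h2 : ∀ n : ℕ, IsIntegral ℤ (((N * N' : ℕ) : K) * pr h a.1 ^ n) := by
    intro n
    have h3 := (inM_dual f hL _).1 (h1 n) _ hN2'
    rw [bf_smul_left, bf_smul_right] at h3
    have h4 : bf (e a : Chev K) (e (-a)) = -1 := by
      unfold bf
      rw [Finset.sum_eq_single (f := fun b : Root => (e a : Chev K).x b * (e (-a) : Chev K).x (-b)) a]
      · simp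
      · intro b _ hb
        rw [e_x, Pi.single_eq_of_ne hb, zero_mul]
      · simp
    rw [h4] at h3
    have h5 : ((N * N' : ℕ) : K) * pr h a.1 ^ n = -(pr h a.1 ^ n * (N : K) * ((N' : K) * -1)) := by
      push_cast; ring
    rw [h5]
    exact h3.neg
  exact isIntegral_of_almost15 (Nat.mul_pos hN hN2) h2

private theorem al_sum15 (v : Lat) : v = ∑ j, v j • al j := by
  funext l
  rw [Finset.sum_apply, Finset.sum_eq_single l]
  · simp [al]
  · intro j _ hj
    simp [al, hj.symm]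
  · intro h
    exact absurd (Finset.mem_univ _) h

private theorem pr_sum15 (h : Fin 8 → K) (v : Lat) : pr h v = ∑ j, (v j : K) * pr h (al j) := by
  have h1 : ∀ j, pr h (al j) = ∑ i, h i * (CartanMatrix.E₈ i j : K) := by
    intro j
    unfold pr al
    refine Finset.sum_congr rfl fun i _ => ?_
    rw [Finset.sum_eq_single j]
    · simp
    · intro k _ hk
      simp [Pi.single_eq_of_ne hk]
    · simp
  simp only [h1, Finset.mul_sum]
  unfold pr
  rw [Finset.sum_comm]
  refine Finset.sum_congr rfl fun j _ => Finset.sum_congr rfl fun i _ => ?_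
  ring

private theorem ip_sum15 (v x : Lat) : ip v x = ∑ i, x i * ip v (al i) := by
  have h1 : ∀ i, ip v (al i) = ∑ j, v j * CartanMatrix.E₈ j i := by
    intro i
    unfold ip al
    refine Finset.sum_congr rfl fun j _ => ?_
    rw [Finset.sum_eq_single i]
    · simp
    · intro k _ hk
      simp [Pi.single_eq_of_ne hk]
    · simp
  simp only [h1, Finset.mul_sum]
  unfold ip
  rw [Finset.sum_comm]
  refine Finset.sum_congr rfl fun j _ => Finset.sum_congr rfl fun i _ => ?_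
  ring

private theorem exists_dual15 (i : Fin 8) : ∃ v : Lat, ∀ h : Fin 8 → K, pr h v = h i := by
  obtain ⟨v, hv⟩ := exists_of_functional (Pi.evalAddMonoidHom (fun _ : Fin 8 => ℤ) i)
  refine ⟨v, fun h => ?_⟩
  have h1 : ∀ k, ∑ j, CartanMatrix.E₈ k j * v j = if k = i then 1 else 0 := by
    intro k
    have h2 := hv (al k)
    have h3 : ip v (al k) = ∑ j, CartanMatrix.E₈ k j * v j := by
      rw [ip_comm]
      unfold ip al
      rw [Finset.sum_eq_single k]
      · simp
      · intro l _ hl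
        simp [Pi.single_eq_of_ne hl]
      · simp
    rw [← h3, ← h2]
    simp only [Pi.evalAddMonoidHom_apply, al, Pi.single_apply]
    by_cases hk : k = i
    · rw [if_pos hk, if_pos hk.symm]
    · rw [if_neg hk, if_neg (fun h => hk h.symm)]
  unfold pr
  have h4 : ∀ k, ∑ j, h k * (CartanMatrix.E₈ k j : K) * (v j : K) = if k = i then h k else 0 := by
    intro k
    have h5 := congrArg (Int.cast : ℤ → K) (h1 k)
    push_cast at h5
    simp only [mul_assoc]
    rw [← Finset.mul_sum, h5]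
    split_ifs <;> simp
  rw [Finset.sum_congr rfl fun k _ => h4 k, Finset.sum_ite_eq' Finset.univ i, if_pos (Finset.mem_univ _)]

private theorem integral_int15 (n : ℤ) : IsIntegral ℤ (n : K) := by
  have := isIntegral_algebraMap (R := ℤ) (A := K) (x := n)
  simpa using this

theorem integral_h (hL : IsLat L B) (f : K ⊗[ℤ] L ≃ₗ⁅K⁆ Chev K) (h : Fin 8 → K) (hh : InM f (c h)) (i : Fin 8) :
    IsIntegral ℤ (h i) := by
  obtain ⟨v, hv⟩ := exists_dual15 i
  rw [← hv h, pr_sum15]
  refine IsIntegral.sum _ fun j _ => ?_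
  exact (integral_int15 _).mul (integral_pr hL f h hh (sr j))

private theorem gz_iter15 (k : ℕ) (y : Chev K) :
    (gz ζ)^[k] y = ⟨y.h, fun a => (ζ ^ (ht a.1)) ^ k * y.x a⟩ := by
  induction k with
  | zero => ext <;> simp
  | succ k ih =>
    rw [Function.iterate_succ_apply', ih]
    ext b
    · rfl
    · simp only [gz]
      ring

private theorem inM_iter15 {f : K ⊗[ℤ] L ≃ₗ⁅K⁆ Chev K} {g : L ≃ₗ⁅ℤ⁆ L} (hfg : ∀ y : L, f (1 ⊗ₜ g y) = gz ζ (f (1 ⊗ₜ y)))
    {y : Chev K} (hy : InM f y) (k : ℕ) : InM f ((gz ζ)^[k] y) := by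
  induction k with
  | zero => exact hy
  | succ k ih =>
    rw [Function.iterate_succ_apply']
    exact inM_gz hfg ih

open Pool.Agent.Helper2.E8A in
private theorem sum_zeta15 (m : ℤ) : ∑ k ∈ Finset.range 31, (ζ ^ m) ^ k = if (31 : ℤ) ∣ m then 31 else 0 := by
  have h0 : (ζ ^ m) ^ 31 = 1 := by
    rw [← zpow_natCast, ← zpow_mul, mul_comm, zpow_mul]
    have : ζ ^ ((31 : ℕ) : ℤ) = 1 := by rw [zpow_natCast]; exact hζ.pow_eq_one
    rw [this, one_zpow]
  split_ifs with h
  · have h1 : ζ ^ m = 1 := (hζ.zpow_eq_one_iff_dvd m).2 (by exact_mod_cast h)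
    rw [h1]
    simp
  · have h1 : ζ ^ m ≠ 1 := fun h2 => h (by exact_mod_cast (hζ.zpow_eq_one_iff_dvd m).1 h2)
    have h2 := mul_geom_sum (ζ ^ m) 31
    rw [h0, sub_self] at h2
    exact (mul_eq_zero.1 h2).resolve_left (sub_ne_zero.2 h1)

private theorem not_dvd_ht15 (a : Root) : ¬ (31 : ℤ) ∣ ht a.1 := by
  intro h
  have h1 := abs_le.1 (abs_ht_root_le a)
  have h2 := ht_root_ne_zero a
  omega

theorem inM_31c {f : K ⊗[ℤ] L ≃ₗ⁅K⁆ Chev K} {g : L ≃ₗ⁅ℤ⁆ L} (hfg : ∀ y : L, f (1 ⊗ₜ g y) = gz ζ (f (1 ⊗ₜ y))) {y : Chev K}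
    (hy : InM f y) : InM f ((31 : K) • c y.h) := by
  have h1 := inM_sum (f := f) (Finset.range 31) (fun k => (gz ζ)^[k] y) (fun k _ => inM_iter15 hfg hy k)
  have h2 : ∑ k ∈ Finset.range 31, (gz ζ)^[k] y = (31 : K) • c y.h := by
    ext b
    · simp [gz_iter15]
    · simp only [gz_iter15, sum_x, Finset.sum_apply, smul_x, c_x, Pi.smul_apply, Pi.zero_apply, smul_zero]
      rw [← Finset.sum_mul, sum_zeta15, if_neg (not_dvd_ht15 b), zero_mul]
  rw [← h2]; exact h1

theorem inM_t (hL : IsLat L B) {f : K ⊗[ℤ] L ≃ₗ⁅K⁆ Chev K} {g : L ≃ₗ⁅ℤ⁆ L}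
    (hfg : ∀ y : L, f (1 ⊗ₜ g y) = gz ζ (f (1 ⊗ₜ y))) (v : Lat) : InM f ((31 : K) • t v) := by
  rw [inM_dual f hL]
  intro z hz
  have h1 := inM_31c hfg hz
  rw [← c_smul] at h1
  have h2 := integral_h hL f _ h1
  rw [bf_smul_left]
  unfold bf
  have h3 : ∑ a : Root, (t v : Chev K).x a * z.x (-a) = 0 := by
    refine Finset.sum_eq_zero fun a _ => ?_
    rw [t_x]; simp
  rw [h3, sub_zero, Finset.mul_sum]
  refine IsIntegral.sum _ fun i _ => ?_
  rw [Finset.mul_sum]
  refine IsIntegral.sum _ fun j _ => ?_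
  have h4 : (31 : K) * ((t v : Chev K).h i * (CartanMatrix.E₈ i j : K) * z.h j) =
      ((v i * CartanMatrix.E₈ i j : ℤ) : K) * (((31 : K) • z.h) j) := by
    rw [t_h, Pi.smul_apply, smul_eq_mul]
    push_cast
    ring
  rw [h4]
  exact (integral_int15 _).mul (h2 j)

private theorem proj_step15 (hL : IsLat L B) {f : K ⊗[ℤ] L ≃ₗ⁅K⁆ Chev K} {g : L ≃ₗ⁅ℤ⁆ L}
    (hfg : ∀ y : L, f (1 ⊗ₜ g y) = gz ζ (f (1 ⊗ₜ y))) (a : Root) (s : Finset Root)
    (hs : ∀ b ∈ s, b ≠ a ∧ (31 : ℤ) ∣ ht b.1 - ht a.1) (z : Chev K) (hz : InM f z) (hz0 : z.h = 0) :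
    ∃ z' : Chev K, InM f z' ∧ z'.h = 0 ∧ z'.x a = (31 : K) ^ s.card * z.x a ∧ (∀ b, z.x b = 0 → z'.x b = 0) ∧
      ∀ b ∈ s, z'.x b = 0 := by
  induction s using Finset.induction_on with
  | empty => exact ⟨z, hz, hz0, by simp, fun _ h => h, by simp⟩
  | insert b s hb ih =>
    obtain ⟨z', h1, h2, h3, h4, h5⟩ := ih (fun b' hb' => hs b' (Finset.mem_insert_of_mem hb'))
    obtain ⟨hba, hd⟩ := hs b (Finset.mem_insert_self b s)
    have hbn : a ≠ -b := by
      intro h
      rw [h, neg_val, ht_neg] at hd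
      have h1 := abs_le.1 (abs_ht_root_le b)
      have h2 := ht_root_ne_zero b
      omega
    obtain ⟨v, hv⟩ := exists_ip_eq_one (a := a) (b := b) (Ne.symm hba) hbn
    have hv' : ip v a.1 - ip v b.1 = 1 := by
      rw [sub_eq_add_neg, ip_add_right, ip_neg_right] at hv
      linarith
    have hx : ∀ d : Root, (⁅(31 : K) • (t v : Chev K), z'⁆ + (-(31 * (ip v b.1 : K))) • z').x d =
        31 * ((ip v d.1 : K) - (ip v b.1 : K)) * z'.x d := by
      intro d
      have hx0 : ((31 : K) • (t v : Chev K)).x = 0 := by rw [smul_x, t_x, smul_zero]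
      rw [add_x, Pi.add_apply, brk_x, hx0]
      simp only [Pi.zero_apply, zero_mul, mul_zero, ite_self, Finset.sum_const_zero, add_zero, sub_zero]
      rw [smul_h, pr_smul, t_h, pr_intCast, smul_x, Pi.smul_apply, smul_eq_mul]
      ring
    refine ⟨⁅(31 : K) • (t v : Chev K), z'⁆ + (-(31 * (ip v b.1 : K))) • z', ?_, ?_, ?_, ?_, ?_⟩
    · refine inM_add (inM_lie (inM_t hL hfg v) h1) (inM_smul ?_ h1)
      have h8 := (integral_int15 (-(31 * ip v b.1)))
      push_cast at h8
      exact h8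
    · funext i
      rw [add_h, Pi.add_apply, smul_h, h2, brk_h, smul_x, t_x]
      simp
    · rw [hx, h3, Finset.card_insert_of_notMem hb]
      have h8 : (ip v a.1 : K) - (ip v b.1 : K) = 1 := by exact_mod_cast congrArg (Int.cast : ℤ → K) hv'
      rw [h8]
      ring
    · intro d hd
      rw [hx, h4 d hd, mul_zero]
    · intro d hd
      rcases Finset.mem_insert.1 hd with rfl | hd
      · rw [hx, sub_self]; ring
      · rw [hx, h5 d hd, mul_zero]

theorem inM_proj (hL : IsLat L B) {f : K ⊗[ℤ] L ≃ₗ⁅K⁆ Chev K} {g : L ≃ₗ⁅ℤ⁆ L}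
    (hfg : ∀ y : L, f (1 ⊗ₜ g y) = gz ζ (f (1 ⊗ₜ y))) (a : Root) :
    ∃ n : ℕ, ∀ y : Chev K, InM f y → InM f (((31 : K) ^ n * y.x a) • e a) := by
  classical
  set s : Finset Root := Finset.univ.filter fun b => b ≠ a ∧ (31 : ℤ) ∣ ht b.1 - ht a.1 with hs
  refine ⟨s.card + 1, fun y hy => ?_⟩
  have hζ0 : ζ ≠ 0 := Pool.Agent.Helper2.E8A.hζ.ne_zero (by norm_num)
  have hint : IsIntegral ℤ (ζ ^ (-ht a.1)) := by
    refine IsIntegral.of_pow (n := 31) (by norm_num) ?_
    have h0 : (ζ ^ (-ht a.1)) ^ 31 = 1 := by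
      rw [← zpow_natCast, ← zpow_mul, mul_comm, zpow_mul]
      have : ζ ^ ((31 : ℕ) : ℤ) = 1 := by rw [zpow_natCast]; exact Pool.Agent.Helper2.E8A.hζ.pow_eq_one
      rw [this, one_zpow]
    rw [h0]
    exact isIntegral_one
  have h1 := inM_sum (f := f) (Finset.range 31) (fun k => (ζ ^ (-ht a.1)) ^ k • (gz ζ)^[k] y)
    (fun k _ => inM_smul (hint.pow k) (inM_iter15 hfg hy k))
  set z : Chev K := ∑ k ∈ Finset.range 31, (ζ ^ (-ht a.1)) ^ k • (gz ζ)^[k] y with hz
  have hzh : z.h = 0 := by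
    funext i
    simp only [hz, gz_iter15, sum_h, smul_h, Finset.sum_apply, Pi.smul_apply, smul_eq_mul, Pi.zero_apply]
    rw [← Finset.sum_mul, sum_zeta15, if_neg, zero_mul]
    intro h
    exact not_dvd_ht15 a ((dvd_neg).1 h)
  have hzx : ∀ b : Root, z.x b = (if (31 : ℤ) ∣ ht b.1 - ht a.1 then 31 else 0) * y.x b := by
    intro b
    simp only [hz, gz_iter15, sum_x, smul_x, Finset.sum_apply, Pi.smul_apply, smul_eq_mul]
    rw [← sum_zeta15, Finset.sum_mul]
    refine Finset.sum_congr rfl fun k _ => ?_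
    rw [← mul_assoc, ← mul_pow, ← zpow_add₀ hζ0]
    congr 3
    ring
  obtain ⟨z', g1, g2, g3, g4, g5⟩ := proj_step15 hL hfg a s (fun b hb => (Finset.mem_filter.1 hb).2) z h1 hzh
  have h6 : z' = ((31 : K) ^ (s.card + 1) * y.x a) • e a := by
    ext b
    · rw [g2]; simp
    · rw [smul_x, e_x, Pi.smul_apply, smul_eq_mul]
      by_cases hb : b = a
      · rw [hb, g3, hzx, sub_self, if_pos (dvd_zero _), Pi.single_eq_same, pow_succ]
        ring
      · rw [Pi.single_eq_of_ne hb, mul_zero]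
        by_cases hd : (31 : ℤ) ∣ ht b.1 - ht a.1
        · exact g5 b (Finset.mem_filter.2 ⟨Finset.mem_univ _, hb, hd⟩)
        · exact g4 b (by rw [hzx, if_neg hd, zero_mul])
  rw [← h6]
  exact g1

end Pool.Agent.Helper73.E8
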