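import Pool.Agent.Helper73.E8.Int.Pos
import Pool.Agent.Helper73.E8.Int.Del
import Pool.Agent.Helper73.E8.Gk

/-!
# Standard form of `K ⊗ L` away from 31
-/

set_option autoImplicit false

open scoped TensorProduct

namespace Pool.Agent.Helper73.E8

open Chev NumberField Polynomial
open Pool.Agent.Helper2.E8A (K ζ σ FI dI dv P0 V D T S Φ Tp A)

variable {L : Type} [LieRing L] [Module.Free ℤ L] [Module.Finite ℤ L] {B : LinearMap.BilinForm ℤ L}

private theorem S_toMul (x : Additive Kˣ) : ((S x).toMul : K) = σ (x.toMul : K) := rfl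

private theorem aeval_Φ_S (x : Additive Kˣ) : aeval S Φ x =
    (S^[8] x) + (S^[7] x) - (S^[5] x) - (S^[4] x) - (S^[3] x) + S x + x := by
  unfold Φ
  simp only [_root_.map_add, map_sub, map_pow, aeval_X, map_one, LinearMap.add_apply, LinearMap.sub_apply,
    Module.End.one_apply, Module.End.pow_apply]

/-- There is an isomorphism `f : K ⊗ L → Chev K` which diagonalises `g`, such that the semilinear map `TT f` is the standard
lift of `W`, and the root spaces of the lattice are standard away from `P0`. -/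
theorem exists_std (hL : IsLat L B) (g : L ≃ₗ⁅ℤ⁆ L) (hg : ∀ x, g^[31] x = x) (hg1 : ∃ x, g x ≠ x) {η : Lat → ℤˣ}
    (hη : IsLift W η) :
    ∃ f : K ⊗[ℤ] L ≃ₗ⁅K⁆ Chev K, (∀ y : L, f (1 ⊗ₜ g y) = gz ζ (f (1 ⊗ₜ y))) ∧ IsTT f η 1 ∧
      ∀ (a : Root) (v : V), v ≠ P0 → dI (IA f a) v = 0 := by
  obtain ⟨f₀, hf₀⟩ := exists_kdata hL g hg hg1
  obtain ⟨f, u, hf, hu, hu7⟩ := exists_norm hf₀ hη
  obtain ⟨x, hx, hux⟩ := Pool.Agent.Helper2.E8A.thmA' (dI (IA f (sr 0)))
    (-(Additive.ofMul (u (Multiplicative.ofAdd (W^[7] (al 0)))))) (fun v hv => phi_div hL hf hu hu7 v hv)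
    (tp_c hL hη hu hu7)
  obtain ⟨X, hX⟩ := exists_hom_bk (fun k : Fin 8 => (S^[(k : ℕ)] (-x)).toMul)
  have hXk : ∀ k : ℕ, k < 8 → X (Multiplicative.ofAdd (W^[k] (al 0))) = (S^[k] (-x)).toMul := fun k hk => hX ⟨k, hk⟩
  have hXd : ∀ k : ℕ, k < 8 → X (Multiplicative.ofAdd (W^[k] (al 0))) = (S^[k] (-x)).toMul := hXk
  -- the new cocycle
  let U : Multiplicative Lat →* Kˣ :=
    { toFun := fun y => u y * X (Multiplicative.ofAdd (W (Multiplicative.toAdd y))) *
        (Units.map (σ : K →* K) (X y))⁻¹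
      map_one' := by simp
      map_mul' := fun y z => by
        have h1 : X (Multiplicative.ofAdd (W (Multiplicative.toAdd (y * z)))) =
            X (Multiplicative.ofAdd (W (Multiplicative.toAdd y))) * X (Multiplicative.ofAdd (W (Multiplicative.toAdd z))) := by
          rw [← map_mul]
          exact congrArg (fun r => X (Multiplicative.ofAdd r)) (_root_.map_add W (Multiplicative.toAdd y) (Multiplicative.toAdd z))
        have h2 : (Units.map (σ : K →* K) (X (y * z)))⁻¹ = (Units.map (σ : K →* K) (X y))⁻¹ *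
            (Units.map (σ : K →* K) (X z))⁻¹ := by
          rw [map_mul, map_mul, mul_inv]
        rw [h1, h2, map_mul]
        simp only [mul_assoc, mul_left_comm, mul_comm] }
  have hU : ∀ y : Lat, (U (Multiplicative.ofAdd y) : K) * σ (X (Multiplicative.ofAdd y) : K) =
      (u (Multiplicative.ofAdd y) : K) * (X (Multiplicative.ofAdd (W y)) : K) := by
    intro y
    have h1 : Units.map (σ : K →* K) (X (Multiplicative.ofAdd y)) * (Units.map (σ : K →* K) (X (Multiplicative.ofAdd y)))⁻¹ = 1 :=
      mul_inv_cancel _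
    have h2 : U (Multiplicative.ofAdd y) * Units.map (σ : K →* K) (X (Multiplicative.ofAdd y)) =
        u (Multiplicative.ofAdd y) * X (Multiplicative.ofAdd (W y)) := by
      change u (Multiplicative.ofAdd y) * X (Multiplicative.ofAdd (W y)) * (Units.map (σ : K →* K) (X (Multiplicative.ofAdd y)))⁻¹ *
        Units.map (σ : K →* K) (X (Multiplicative.ofAdd y)) = _
      rw [inv_mul_cancel_right]
    exact congrArg (fun z : Kˣ => (z : K)) h2
  have hadd : ∀ y : Lat, Additive.ofMul (U (Multiplicative.ofAdd y)) = Additive.ofMul (u (Multiplicative.ofAdd y)) +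
      Additive.ofMul (X (Multiplicative.ofAdd (W y))) - S (Additive.ofMul (X (Multiplicative.ofAdd y))) := by
    intro y
    rfl
  have hU1 : U = 1 := by
    refine hom_unique_bk _ _ fun k => ?_
    rw [MonoidHom.one_apply]
    apply Additive.ofMul.injective
    rw [hadd, ofMul_one]
    have hWk : W (W^[(k : ℕ)] (al 0)) = W^[(k : ℕ) + 1] (al 0) := (Function.iterate_succ_apply' _ _ _).symm
    rw [hWk]
    by_cases hk : (k : ℕ) < 7
    · rw [hu7 k hk, hXk _ (by omega), hXk _ (by omega), Function.iterate_succ_apply']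
      simp
    · have hk7 : (k : ℕ) = 7 := by omega
      rw [hk7]
      have h8 : W^[7 + 1] (al 0) = -(W^[7] (al 0)) + W^[5] (al 0) + W^[4] (al 0) + W^[3] (al 0) - W^[1] (al 0) - W^[0] (al 0) := by
        have := W_phi (al 0)
        rw [show (7 + 1 : ℕ) = 8 from rfl, Function.iterate_one, Function.iterate_zero, id]
        rw [← sub_eq_zero, ← this]
        abel
      have hX8 : Additive.ofMul (X (Multiplicative.ofAdd (W^[7 + 1] (al 0)))) =
          -(S^[7] (-x)) + S^[5] (-x) + S^[4] (-x) + S^[3] (-x) - S^[1] (-x) - S^[0] (-x) := by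
        let Xa : Lat →+ Additive Kˣ := AddMonoidHom.mk' (fun y => Additive.ofMul (X (Multiplicative.ofAdd y)))
          (fun y z => congrArg Additive.ofMul (map_mul X (Multiplicative.ofAdd y) (Multiplicative.ofAdd z)))
        have hXa : ∀ k : ℕ, k < 8 → Xa (W^[k] (al 0)) = S^[k] (-x) := fun k hk => congrArg Additive.ofMul (hXk k hk)
        change Xa (W^[7 + 1] (al 0)) = _
        rw [h8, map_sub, map_sub, _root_.map_add, _root_.map_add, _root_.map_add, map_neg,
          hXa 7 (by norm_num), hXa 5 (by norm_num), hXa 4 (by norm_num), hXa 3 (by norm_num), hXa 1 (by norm_num),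
          hXa 0 (by norm_num)]
      rw [hX8, hXk 7 (by norm_num)]
      have h3 : Additive.ofMul (u (Multiplicative.ofAdd (W^[7] (al 0)))) = - aeval S Φ x := by
        rw [← hux, neg_neg]
      rw [h3, aeval_Φ_S]
      have hneg : ∀ n : ℕ, S^[n] (-x) = - (S^[n] x) := fun n => by
        rw [← Module.End.pow_apply, ← Module.End.pow_apply, map_neg]
      have hS8 : S (Additive.ofMul (Additive.toMul (S^[7] (-x)))) = -(S^[8] x) := by
        rw [ofMul_toMul, hneg, map_neg, ← Function.iterate_succ_apply' S]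
      rw [hS8, hneg, hneg, hneg, hneg, hneg, hneg, Function.iterate_one, Function.iterate_zero, id]
      abel
  have hTT : IsTT (resc X f) η 1 := by
    rw [← hU1]
    exact TT_resc hu X U hU
  have hgz := gz_resc hf X
  refine ⟨resc X f, hgz, hTT, fun a v hv => div_eq_zero hL hgz hTT (fun v hv => ?_) a v hv⟩
  rw [dI_resc hL]
  have h0 : X (Multiplicative.ofAdd (sr 0).1) = (-x).toMul := hXk 0 (by norm_num)
  rw [h0, Finsupp.add_apply, hx v hv, ofMul_toMul, map_neg, Finsupp.neg_apply, add_neg_cancel]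

end Pool.Agent.Helper73.E8
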