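import Pool.Agent.Helper73.E8.Int.Defs

/-!
# Block E8-LM: the lattice `M = f (𝓞 K ⊗ L)`

* `bf_f`: `bf (f (1 ⊗ x)) (f (1 ⊗ y)) = - B x y` for `x, y ∈ L` (Killing form of `K ⊗ L` = base change of the Killing form of `L`,
  `LieModule.traceForm_baseChange`; invariance under the isomorphism `f`; `killingForm_eq`; `IsLat.kill`; `60 ≠ 0` in `K`).
* closure properties: `cT L (algebraMap (𝓞 K) K)` is additive, semilinear (`cT_smul`), preserves brackets (`cT` is a `LieHom`),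
  commutes with `1 ⊗ g` (`cT_cG`) and with `σ ⊗ 1` (`σ` restricts to an automorphism of `𝓞 K`, e.g.
  `RingOfIntegers.mapRingEquiv`).
* `inM_mul_exists`: clear denominators: in a `Z`-basis `b_i` of `L`, `f.symm y = ∑ k_i ⊗ b_i`, `k_i ∈ K`; some `n > 0` has `n k_i` integral.
* `inM_dual`: `→`: bilinearity and `bf_f` (values `∑ r_i s_j B(b_i, b_j)` with `r_i, s_j ∈ 𝓞 K`). `←`: write `f.symm y = ∑ k_i ⊗ b_i`;
  as `B : L → Dual L` is bijective there are `c_j ∈ L` with `B (b_i) (c_j) = δ_ij`; the hypothesis for `z = f (1 ⊗ c_j)` says that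
  `- k_j` is integral for all `j` (`NumberField.RingOfIntegers`: elements of `K` integral over `Z`).
-/

set_option autoImplicit false

open scoped TensorProduct

namespace Pool.Agent.Helper73.E8

open Chev NumberField
open Pool.Agent.Helper2.E8A (K ζ σ FI dI dv P0 V D)

variable {L : Type} [LieRing L] [Module.Free ℤ L] [Module.Finite ℤ L] {B : LinearMap.BilinForm ℤ L}

theorem bf_f (hL : IsLat L B) (f : K ⊗[ℤ] L ≃ₗ⁅K⁆ Chev K) (x y : L) :
    bf (f (1 ⊗ₜ x)) (f (1 ⊗ₜ y)) = -((B x y : ℤ) : K) := by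
  have h1 := LieAlgebra.killingForm_of_equiv_apply (R := K) f (1 ⊗ₜ x) (1 ⊗ₜ y)
  rw [killingForm_eq] at h1
  have h2 : killingForm K (K ⊗[ℤ] L) = (killingForm ℤ L).baseChange K := by
    exact LieModule.traceForm_baseChange ℤ L L K
  rw [h2] at h1
  have h3 : ((killingForm ℤ L).baseChange K) (1 ⊗ₜ x) (1 ⊗ₜ y) = ((killingForm ℤ L x y : ℤ) : K) := by
    rw [LinearMap.BilinForm.baseChange_tmul]
    simp
  rw [h3, hL.kill] at h1
  have h4 : (60 : K) * (bf (f (1 ⊗ₜ x)) (f (1 ⊗ₜ y)) + ((B x y : ℤ) : K)) = 0 := by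
    rw [mul_add, h1]
    push_cast
    ring
  have h5 : (60 : K) ≠ 0 := by norm_num
  exact eq_neg_of_add_eq_zero_left ((mul_eq_zero.1 h4).resolve_left h5)

section

variable (f : K ⊗[ℤ] L ≃ₗ⁅K⁆ Chev K)

theorem inM_of (x : L) : InM f (f (1 ⊗ₜ x)) := by
  exact ⟨1 ⊗ₜ x, by rw [cT_tmul, map_one]⟩

theorem inM_zero : InM f 0 := by
  exact ⟨0, by rw [map_zero, map_zero]⟩

variable {f}

theorem inM_add {y z : Chev K} (hy : InM f y) (hz : InM f z) : InM f (y + z) := by
  obtain ⟨u, rfl⟩ := hy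
  obtain ⟨v, rfl⟩ := hz
  exact ⟨u + v, by rw [_root_.map_add, _root_.map_add]⟩

theorem inM_sum {ι : Type*} (s : Finset ι) (y : ι → Chev K) (hy : ∀ i ∈ s, InM f (y i)) : InM f (∑ i ∈ s, y i) := by
  classical
  induction s using Finset.induction_on with
  | empty => exact inM_zero f
  | insert a s ha ih =>
    rw [Finset.sum_insert ha]
    exact inM_add (hy a (Finset.mem_insert_self a s)) (ih fun i hi => hy i (Finset.mem_insert_of_mem hi))

theorem inM_smul {r : K} (hr : IsIntegral ℤ r) {y : Chev K} (hy : InM f y) : InM f (r • y) := by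
  obtain ⟨u, rfl⟩ := hy
  let r' : 𝓞 K := ⟨r, hr⟩
  refine ⟨r' • u, ?_⟩
  rw [cT_smul, _root_.map_smul]
  rfl

theorem inM_lie {y z : Chev K} (hy : InM f y) (hz : InM f z) : InM f ⁅y, z⁆ := by
  obtain ⟨u, rfl⟩ := hy
  obtain ⟨v, rfl⟩ := hz
  exact ⟨⁅u, v⁆, by rw [LieHom.map_lie]; exact LieHom.map_lie (f : K ⊗[ℤ] L →ₗ⁅K⁆ Chev K) _ _⟩

theorem inM_TT {y : Chev K} : InM f (TT f y) ↔ InM f y := by
  have key : ∀ (τ : K ≃+* K) (z : 𝓞 K ⊗[ℤ] L), cT L (τ : K →+* K) (cT L (algebraMap (𝓞 K) K) z) =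
      cT L (algebraMap (𝓞 K) K) (cT L ((RingOfIntegers.mapRingEquiv τ : 𝓞 K ≃+* 𝓞 K) : 𝓞 K →+* 𝓞 K) z) := by
    intro τ z
    rw [cT_cT, cT_cT]
    congr 1
  have hσ : ((σ : K ≃+* K) : K →+* K) = (σ : K →+* K) := rfl
  constructor
  · rintro ⟨z, hz⟩
    have h1 : cT L (algebraMap (𝓞 K) K) z = cT L (σ : K →+* K) (f.symm y) := f.injective hz
    refine ⟨cT L ((RingOfIntegers.mapRingEquiv ((σ : K ≃+* K).symm) : 𝓞 K ≃+* 𝓞 K) : 𝓞 K →+* 𝓞 K) z, ?_⟩
    rw [← key, h1, ← hσ, cT_cT, RingEquiv.symm_comp, cT_id, f.apply_symm_apply]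
  · rintro ⟨z, rfl⟩
    refine ⟨cT L ((RingOfIntegers.mapRingEquiv (σ : K ≃+* K) : 𝓞 K ≃+* 𝓞 K) : 𝓞 K →+* 𝓞 K) z, ?_⟩
    rw [← key, hσ]
    unfold TT
    rw [f.symm_apply_apply]

theorem inM_gz {g : L ≃ₗ⁅ℤ⁆ L} (hfg : ∀ y : L, f (1 ⊗ₜ g y) = gz ζ (f (1 ⊗ₜ y))) {y : Chev K} (hy : InM f y) :
    InM f (gz ζ y) := by
  have hgs : ∀ (r : K) (u : Chev K), gz ζ (r • u) = r • gz ζ u := by
    intro r u
    ext i
    · rfl
    · change ζ ^ (ht i.1) * (r * u.x i) = r * (ζ ^ (ht i.1) * u.x i)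
      ring
  have hga : ∀ u v : Chev K, gz ζ (u + v) = gz ζ u + gz ζ v := by
    intro u v
    ext i
    · rfl
    · change ζ ^ (ht i.1) * (u.x i + v.x i) = ζ ^ (ht i.1) * u.x i + ζ ^ (ht i.1) * v.x i
      ring
  have hg0 : gz ζ (0 : Chev K) = 0 := by
    have h := hgs 0 0
    rwa [zero_smul, zero_smul] at h
  have key : ∀ w : K ⊗[ℤ] L, gz ζ (f w) = f (cG K (g : L →ₗ⁅ℤ⁆ L) w) := by
    intro w
    induction w using TensorProduct.induction_on with
    | zero => rw [map_zero, map_zero, map_zero, hg0]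
    | tmul a x =>
      have h1 : (a ⊗ₜ[ℤ] x : K ⊗[ℤ] L) = a • ((1 : K) ⊗ₜ[ℤ] x) := by
        rw [TensorProduct.smul_tmul', smul_eq_mul, mul_one]
      rw [h1, _root_.map_smul, hgs, cG_smul, _root_.map_smul, cG_tmul, ← hfg]
      rfl
    | add u v hu hv => rw [_root_.map_add, hga, hu, hv, _root_.map_add, _root_.map_add]
  obtain ⟨z, rfl⟩ := hy
  exact ⟨cG (𝓞 K) (g : L →ₗ⁅ℤ⁆ L) z, by rw [key, cT_cG]⟩

variable (f)

theorem inM_mul_exists (y : Chev K) : ∃ n : ℕ, 0 < n ∧ InM f ((n : K) • y) := by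
  have key : ∀ w : K ⊗[ℤ] L, ∃ n : ℕ, 0 < n ∧ InM f ((n : K) • f w) := by
    intro w
    induction w using TensorProduct.induction_on with
    | zero => exact ⟨1, one_pos, by rw [map_zero, smul_zero]; exact inM_zero f⟩
    | tmul a x =>
      have hal : IsAlgebraic ℤ a := by
        have h := Algebra.IsAlgebraic.isAlgebraic (R := ℚ) a
        exact (IsFractionRing.isAlgebraic_iff ℤ ℚ K).2 h
      obtain ⟨m, hm, hi⟩ := hal.exists_integral_multiple
      refine ⟨m.natAbs, Int.natAbs_pos.2 hm, ?_⟩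
      have h1 : (a ⊗ₜ[ℤ] x : K ⊗[ℤ] L) = a • ((1 : K) ⊗ₜ[ℤ] x) := by
        rw [TensorProduct.smul_tmul', smul_eq_mul, mul_one]
      rw [h1, _root_.map_smul, smul_smul]
      refine inM_smul ?_ (inM_of f x)
      rw [zsmul_eq_mul] at hi
      rcases Int.natAbs_eq m with h | h
      · rw [h] at hi
        simpa using hi
      · rw [h] at hi
        simpa using hi.neg
    | add u v hu hv =>
      obtain ⟨n, hn, hn'⟩ := hu
      obtain ⟨m, hm, hm'⟩ := hv
      refine ⟨n * m, Nat.mul_pos hn hm, ?_⟩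
      have h1 : ((n * m : ℕ) : K) • f (u + v) = (m : K) • ((n : K) • f u) + (n : K) • ((m : K) • f v) := by
        rw [_root_.map_add, smul_add, smul_smul, smul_smul]
        push_cast
        rw [mul_comm (m : K) (n : K)]
      rw [h1]
      exact inM_add (inM_smul (isIntegral_natCast _) hn') (inM_smul (isIntegral_natCast _) hm')
  obtain ⟨n, hn, h⟩ := key (f.symm y)
  rw [f.apply_symm_apply] at h
  exact ⟨n, hn, h⟩

theorem inM_dual (hL : IsLat L B) (y : Chev K) : InM f y ↔ ∀ z, InM f z → IsIntegral ℤ (bf y z) := by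
  have hz0 : ∀ z : Chev K, bf 0 z = 0 := by
    intro z
    have h := bf_smul_left (0 : K) (0 : Chev K) z
    rwa [zero_smul, zero_mul] at h
  have hz1 : ∀ z : Chev K, bf z 0 = 0 := by
    intro z
    rw [bf_comm, hz0]
  have htm : ∀ (A : K) (x : L), (A ⊗ₜ[ℤ] x : K ⊗[ℤ] L) = A • ((1 : K) ⊗ₜ[ℤ] x) := by
    intro A x
    rw [TensorProduct.smul_tmul', smul_eq_mul, mul_one]
  constructor
  · rintro ⟨u, rfl⟩ z ⟨v, rfl⟩
    induction u using TensorProduct.induction_on with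
    | zero => rw [map_zero, map_zero, hz0]; exact isIntegral_zero
    | add u u' hu hu' => rw [_root_.map_add, _root_.map_add, bf_add_left]; exact hu.add hu'
    | tmul a x =>
      induction v using TensorProduct.induction_on with
      | zero => rw [map_zero, map_zero, hz1]; exact isIntegral_zero
      | add v v' hv hv' => rw [_root_.map_add, _root_.map_add, bf_add_right]; exact hv.add hv'
      | tmul b x' =>
        rw [cT_tmul, cT_tmul, htm, htm _ x', _root_.map_smul, _root_.map_smul, bf_smul_left, bf_smul_right, bf_f hL]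
        exact a.2.mul (b.2.mul (isIntegral_intCast _).neg)
  · intro h
    let b := Module.Free.chooseBasis ℤ L
    have hc : ∀ j, ∃ x : L, ∀ z, B x z = b.coord j z := by
      intro j
      obtain ⟨x, hx⟩ := hL.uni.2 (b.coord j)
      exact ⟨x, fun z => by rw [hx]⟩
    choose cc hcc using hc
    let bK := b.baseChange K
    have hbK : ∀ i, bK i = (1 : K) ⊗ₜ[ℤ] b i := fun i => by
      rw [Module.Basis.baseChange_apply]
    have hy : y = ∑ i, (bK.repr (f.symm y) i) • f (1 ⊗ₜ b i) := by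
      conv_lhs => rw [← f.apply_symm_apply y, ← bK.sum_repr (f.symm y)]
      rw [map_sum]
      refine Finset.sum_congr rfl fun i _ => ?_
      rw [_root_.map_smul, hbK]
    have hval : ∀ j, bf y (f (1 ⊗ₜ cc j)) = -(bK.repr (f.symm y) j) := by
      intro j
      have h1 : bf y (f (1 ⊗ₜ cc j)) = bfL y (f (1 ⊗ₜ cc j)) := rfl
      rw [h1]
      conv_lhs => rw [hy]
      rw [map_sum, LinearMap.sum_apply, Finset.sum_eq_single j]
      · rw [_root_.map_smul, LinearMap.smul_apply, bfL_apply, bf_f hL, hL.symm, hcc]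
        simp
      · intro i _ hij
        rw [_root_.map_smul, LinearMap.smul_apply, bfL_apply, bf_f hL, hL.symm, hcc]
        simp [Finsupp.single_apply, hij]
      · intro hj
        exact absurd (Finset.mem_univ _) hj
    rw [hy]
    refine inM_sum _ _ fun i _ => inM_smul ?_ (inM_of f _)
    have h1 := h _ (inM_of f (cc i))
    rw [hval] at h1
    simpa using h1.neg

end

end Pool.Agent.Helper73.E8
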