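import Pool.Agent.Helper73.E8.Int.Lm
import Pool.Agent.Helper73.E8.Int.Norm

/-!
# Block E8-POS: positivity

* `tp_herm`: for `y ≠ 0` in `Chev K` the element `- bf y (f ((σ^15 ⊗ 1) (f⁻¹ y)))` is totally positive. Let `z = f⁻¹ y = ∑ k_i ⊗ b_i` with a
  `Z`-basis `b_i` of `L`; by `bf_f` and bilinearity the element is `∑_ij k_i (σ^15 k_j) B(b_i, b_j)`. For `φ : K → ℂ`:
  `φ ((σ^15) k) = conj (φ k)` (`conj_emb`), so its image is `∑_ij φ(k_i) conj(φ(k_j)) B(b_i, b_j)`, the hermitian extension of the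
  positive definite symmetric real form `B` (`IsLat.pos`), at the vector `(φ k_i) ≠ 0`: with `φ k_i = r_i + i s_i` it is
  `B(r, r) + B(s, s) > 0` (the imaginary part cancels by symmetry).
* `TT_iter`: `(TT f)^[15] y = f (cT L (σ^15) (f.symm y))` (`cT_cT`).
* `TT15_e`: `IsTT f η u` and `mono_smul`, `mono_e`: `(TT f)^[15] (e (sr 0)) = p • e (-(sr 0))` with
  `p = ∏_{j<15} σ^(14-j) (η (W^j α_0) u (W^j α_0))` (induction on the number of steps: `(TT f)^[m] (e a) = p_m • e (W^m a)`,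
  `p_(m+1) = σ (p_m) k (W^m a)`; `W^15 = -1`: `W_fifteen`); the signs are fixed by `σ` and their product is 1 (`lift_W_fifteen`).
* `tp_c`: `- bf (e a) (p • e (-a)) = p`, so `p` is totally positive; in additive notation
  `ofMul p = ∑_{j<15} S^(14-j) (û (W^j α_0))`; with `û (W^j α_0) = 0, ..., 0, ĉ, -ĉ, ĉ, 0, 0, ĉ, -ĉ, ĉ` (`hom_bk`) this is
  `(S^7 - S^6 + S^5 + S^2 - S + 1) ĉ = aeval S A ĉ`. Finally `Tp.inv`.
-/

set_option autoImplicit false

open scoped TensorProduct

namespace Pool.Agent.Helper73.E8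

open Chev NumberField Polynomial
open Pool.Agent.Helper2.E8A (K ζ σ FI dI dv P0 V D T S Tp A)

variable {L : Type} [LieRing L] [Module.Free ℤ L] [Module.Finite ℤ L] {B : LinearMap.BilinForm ℤ L}

private theorem posQ {ι : Type} [Fintype ι] (hL : IsLat L B) (b : Module.Basis ι ℤ L) (r : ι → ℝ) (hr : r ≠ 0) :
    0 < ∑ i, ∑ j, r i * r j * ((B (b i) (b j) : ℤ) : ℝ) := by
  classical
  set x : ℝ ⊗[ℤ] L := ∑ i, r i • ((1 : ℝ) ⊗ₜ[ℤ] b i) with hx
  have hx0 : x ≠ 0 := by
    intro h0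
    apply hr
    have h1 : x = (Algebra.TensorProduct.basis ℝ b).equivFun.symm r := by
      rw [Module.Basis.equivFun_symm_apply]
      exact Finset.sum_congr rfl fun i _ => by rw [Algebra.TensorProduct.basis_apply]
    rw [h0] at h1
    have h2 := congrArg (Algebra.TensorProduct.basis ℝ b).equivFun h1
    rw [LinearEquiv.apply_symm_apply, map_zero] at h2
    exact h2.symm
  have h1 := hL.pos x hx0
  have h2 : LinearMap.BilinForm.baseChange ℝ B x x = ∑ i, ∑ j, r i * r j * ((B (b i) (b j) : ℤ) : ℝ) := by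
    rw [hx]
    simp only [map_sum, LinearMap.sum_apply, _root_.map_smul, LinearMap.smul_apply, LinearMap.BilinForm.baseChange_tmul, mul_one,
      smul_eq_mul, zsmul_eq_mul, Finset.mul_sum]
    rw [Finset.sum_comm]
    exact Finset.sum_congr rfl fun i _ => Finset.sum_congr rfl fun j _ => by ring
  rw [← h2]
  exact h1

private theorem posQ' {ι : Type} [Fintype ι] (hL : IsLat L B) (b : Module.Basis ι ℤ L) (r : ι → ℝ) :
    0 ≤ ∑ i, ∑ j, r i * r j * ((B (b i) (b j) : ℤ) : ℝ) := by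
  rcases eq_or_ne r 0 with h | h
  · rw [h]
    simp
  · exact (posQ hL b r h).le

theorem tp_herm (hL : IsLat L B) (f : K ⊗[ℤ] L ≃ₗ⁅K⁆ Chev K) (y : Chev K) (hy : y ≠ 0) :
    Tp (-bf y (f (cT L ((σ ^ 15 : K ≃ₐ[ℚ] K) : K →+* K) (f.symm y)))) := by
  classical
  set b := Module.Free.chooseBasis ℤ L with hb
  set z := f.symm y with hz
  have hyz : f z = y := f.apply_symm_apply y
  have hz0 : z ≠ 0 := fun h => hy (by rw [← hyz, h, map_zero])
  set k : Module.Free.ChooseBasisIndex ℤ L → K := (Algebra.TensorProduct.basis K b).equivFun z with hk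
  have hk0 : k ≠ 0 := by
    intro h0
    apply hz0
    exact (Algebra.TensorProduct.basis K b).equivFun.map_eq_zero_iff.1 h0
  have hzk : z = ∑ i, k i • ((1 : K) ⊗ₜ[ℤ] b i) := by
    have h1 : (Algebra.TensorProduct.basis K b).equivFun.symm k = z := by
      rw [hk, LinearEquiv.symm_apply_apply]
    rw [← h1, Module.Basis.equivFun_symm_apply]
    exact Finset.sum_congr rfl fun i _ => by rw [Algebra.TensorProduct.basis_apply]
  set τ : K →+* K := ((σ ^ 15 : K ≃ₐ[ℚ] K) : K →+* K) with hτ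
  have hform : -bf y (f (cT L τ z)) = ∑ i, ∑ j, k i * τ (k j) * ((B (b i) (b j) : ℤ) : K) := by
    have h1 : y = ∑ i, k i • f ((1 : K) ⊗ₜ[ℤ] b i) := by
      rw [← hyz]
      conv_lhs => rw [hzk]
      rw [map_sum]
      exact Finset.sum_congr rfl fun i _ => _root_.map_smul f _ _
    have h2 : f (cT L τ z) = ∑ i, τ (k i) • f ((1 : K) ⊗ₜ[ℤ] b i) := by
      conv_lhs => rw [hzk]
      rw [map_sum, map_sum]
      refine Finset.sum_congr rfl fun i _ => ?_
      rw [cT_smul, cT_tmul, map_one, _root_.map_smul]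
    have h3 : ∀ u v : Chev K, bf u v = bfL u v := fun u v => rfl
    have h4 : ∀ i j, (bfL (f ((1 : K) ⊗ₜ[ℤ] b i)) (f ((1 : K) ⊗ₜ[ℤ] b j)) : K) = -((B (b i) (b j) : ℤ) : K) :=
      fun i j => bf_f hL f (b i) (b j)
    rw [h2]
    conv_lhs => rw [h1]
    rw [h3]
    simp only [map_sum, LinearMap.sum_apply, _root_.map_smul, LinearMap.smul_apply, h4, smul_eq_mul, mul_neg,
      Finset.sum_neg_distrib, neg_neg, Finset.mul_sum]
    rw [Finset.sum_comm]
    exact Finset.sum_congr rfl fun i _ => Finset.sum_congr rfl fun j _ => by ring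
  rw [hform]
  intro φ
  have hφ : φ (∑ i, ∑ j, k i * τ (k j) * ((B (b i) (b j) : ℤ) : K)) =
      ∑ i, ∑ j, φ (k i) * starRingEnd ℂ (φ (k j)) * ((B (b i) (b j) : ℤ) : ℂ) := by
    simp only [map_sum, map_mul, map_intCast]
    refine Finset.sum_congr rfl fun i _ => Finset.sum_congr rfl fun j _ => ?_
    rw [Helper2.E8A.conj_emb φ (k j)]
    rfl
  rw [hφ]
  constructor
  · simp only [Complex.im_sum, Complex.mul_im, Complex.mul_re, Complex.conj_re, Complex.conj_im, Complex.intCast_re,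
      Complex.intCast_im, mul_zero, zero_add]
    have h1 : ∑ i, ∑ j, (φ (k i)).im * (φ (k j)).re * ((B (b i) (b j) : ℤ) : ℝ) =
        ∑ i, ∑ j, (φ (k i)).re * (φ (k j)).im * ((B (b i) (b j) : ℤ) : ℝ) := by
      rw [Finset.sum_comm]
      refine Finset.sum_congr rfl fun i _ => Finset.sum_congr rfl fun j _ => ?_
      rw [hL.symm (b j) (b i)]
      ring
    have h2 : ∑ i, ∑ j, ((φ (k i)).re * -(φ (k j)).im + (φ (k i)).im * (φ (k j)).re) * ((B (b i) (b j) : ℤ) : ℝ) =
        ∑ i, ∑ j, (φ (k i)).im * (φ (k j)).re * ((B (b i) (b j) : ℤ) : ℝ) -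
        ∑ i, ∑ j, (φ (k i)).re * (φ (k j)).im * ((B (b i) (b j) : ℤ) : ℝ) := by
      rw [← Finset.sum_sub_distrib]
      refine Finset.sum_congr rfl fun i _ => ?_
      rw [← Finset.sum_sub_distrib]
      exact Finset.sum_congr rfl fun j _ => by ring
    rw [h2, h1, sub_self]
  · simp only [Complex.re_sum, Complex.mul_im, Complex.mul_re, Complex.conj_re, Complex.conj_im, Complex.intCast_re,
      Complex.intCast_im, mul_zero, sub_zero]
    have h2 : ∑ i, ∑ j, ((φ (k i)).re * (φ (k j)).re - (φ (k i)).im * -(φ (k j)).im) * ((B (b i) (b j) : ℤ) : ℝ) =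
        ∑ i, ∑ j, (φ (k i)).re * (φ (k j)).re * ((B (b i) (b j) : ℤ) : ℝ) +
        ∑ i, ∑ j, (φ (k i)).im * (φ (k j)).im * ((B (b i) (b j) : ℤ) : ℝ) := by
      rw [← Finset.sum_add_distrib]
      refine Finset.sum_congr rfl fun i _ => ?_
      rw [← Finset.sum_add_distrib]
      exact Finset.sum_congr rfl fun j _ => by ring
    rw [h2]
    by_cases hre : (fun i => (φ (k i)).re) = 0
    · have him : (fun i => (φ (k i)).im) ≠ 0 := by
        intro him
        apply hk0
        funext i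
        have h3 : φ (k i) = 0 := Complex.ext (congrFun hre i) (congrFun him i)
        exact (map_eq_zero φ).1 h3
      have h4 := posQ' hL b (fun i => (φ (k i)).re)
      have h5 := posQ hL b _ him
      exact add_pos_of_nonneg_of_pos h4 h5
    · have h4 := posQ hL b _ hre
      have h5 := posQ' hL b (fun i => (φ (k i)).im)
      exact add_pos_of_pos_of_nonneg h4 h5

omit [Module.Free ℤ L] [Module.Finite ℤ L] in
theorem TT_iter (f : K ⊗[ℤ] L ≃ₗ⁅K⁆ Chev K) (n : ℕ) (y : Chev K) :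
    (TT f)^[n] y = f (cT L ((σ ^ n : K ≃ₐ[ℚ] K) : K →+* K) (f.symm y)) := by
  induction n with
  | zero =>
    rw [Function.iterate_zero, id_eq]
    have h1 : ((σ ^ 0 : K ≃ₐ[ℚ] K) : K →+* K) = RingHom.id K := by
      rw [pow_zero]
      rfl
    rw [h1, cT_id]
    exact (f.apply_symm_apply y).symm
  | succ n ih =>
    rw [Function.iterate_succ_apply', ih, TT]
    have h1 : f.symm (f (cT L ((σ ^ n : K ≃ₐ[ℚ] K) : K →+* K) (f.symm y))) =
        cT L ((σ ^ n : K ≃ₐ[ℚ] K) : K →+* K) (f.symm y) := f.symm_apply_apply _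
    rw [h1, cT_cT]
    have h2 : ((σ : K →+* K).comp ((σ ^ n : K ≃ₐ[ℚ] K) : K →+* K)) = ((σ ^ (n + 1) : K ≃ₐ[ℚ] K) : K →+* K) := by
      rw [pow_succ']
      rfl
    rw [h2]

omit [Module.Free ℤ L] [Module.Finite ℤ L] in
theorem TT15_e {f : K ⊗[ℤ] L ≃ₗ⁅K⁆ Chev K} {η : Lat → ℤˣ} (hη : IsLift W η) {u : Multiplicative Lat →* Kˣ}
    (h : IsTT f η u) : (TT f)^[15] (e (sr 0)) =
      (∏ j ∈ Finset.range 15, (σ ^ (14 - j)) (u (Multiplicative.ofAdd (W^[j] (al 0))) : K)) • e (-(sr 0)) := by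
  have hroot : ∀ m : ℕ, ((onRoot W W_isom)^[m] (sr 0)).1 = W^[m] (al 0) := by
    intro m
    induction m with
    | zero => rfl
    | succ m ih => rw [Function.iterate_succ_apply', onRoot_val, ih, Function.iterate_succ_apply']
  set x : ℕ → K := fun j => ((η (W^[j] (al 0)) : ℤ) : K) * (u (Multiplicative.ofAdd (W^[j] (al 0))) : K) with hx
  have key : ∀ m : ℕ, (TT f)^[m] (e (sr 0)) =
      (∏ j ∈ Finset.range m, (σ ^ (m - 1 - j)) (x j)) • e ((onRoot W W_isom)^[m] (sr 0)) := by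
    intro m
    induction m with
    | zero => rw [Finset.prod_range_zero, one_smul]; rfl
    | succ m ih =>
      rw [Function.iterate_succ_apply', ih, h, mono_smul, mono_e, smul_smul, Function.iterate_succ_apply', hroot,
        Finset.prod_range_succ, map_prod]
      congr 1
      have h1 : (σ ^ (m + 1 - 1 - m)) (x m) = x m := by
        have h2 : m + 1 - 1 - m = 0 := by omega
        rw [h2, pow_zero]
        rfl
      rw [h1]
      congr 1
      refine Finset.prod_congr rfl fun j hj => ?_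
      rw [Finset.mem_range] at hj
      have h2 : m + 1 - 1 - j = (m - 1 - j) + 1 := by omega
      rw [h2, pow_succ', AlgEquiv.mul_apply]
      rfl
  rw [key 15]
  have h15 : (onRoot W W_isom)^[15] (sr 0) = -(sr 0) := by
    apply root_ext
    rw [hroot, W_fifteen]
    rfl
  rw [h15]
  refine congrArg (fun q : K => q • (e (-(sr 0)) : Chev K)) ?_
  have h1 : ∀ j, (σ ^ (14 - j)) (x j) = ((η (W^[j] (al 0)) : ℤ) : K) *
      (σ ^ (14 - j)) (u (Multiplicative.ofAdd (W^[j] (al 0))) : K) := by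
    intro j
    rw [hx]
    simp only [map_mul, map_intCast]
  have h2 : ∏ j ∈ Finset.range 15, ((η (W^[j] (al 0)) : ℤ) : K) = 1 := by
    have h3 := lift_W_fifteen η hη (sr 0)
    have h4 := congrArg (fun v : ℤˣ => ((v : ℤ) : K)) h3
    simp only [Units.coe_prod, Int.cast_prod, Units.val_one, Int.cast_one] at h4
    exact h4
  have h3 : ∏ j ∈ Finset.range 15, (σ ^ (15 - 1 - j)) (x j)
      = ∏ j ∈ Finset.range 15, (((η (W^[j] (al 0)) : ℤ) : K) *
        (σ ^ (14 - j)) (u (Multiplicative.ofAdd (W^[j] (al 0))) : K)) := by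
    refine Finset.prod_congr rfl fun j _ => ?_
    rw [← h1 j]
  rw [h3, Finset.prod_mul_distrib, h2, one_mul]

private theorem bf_e_neg (a : Root) : bf (e a : Chev K) (e (-a)) = -1 := by
  unfold bf
  rw [Finset.sum_eq_single a]
  · simp
  · intro b _ hb
    simp [hb]
  · intro h
    exact absurd (Finset.mem_univ _) h

theorem tp_c (hL : IsLat L B) {f : K ⊗[ℤ] L ≃ₗ⁅K⁆ Chev K} {η : Lat → ℤˣ} (hη : IsLift W η)
    {u : Multiplicative Lat →* Kˣ} (h : IsTT f η u) (hu : ∀ k : ℕ, k < 7 → u (Multiplicative.ofAdd (W^[k] (al 0))) = 1) :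
    Tp ((aeval S A (-(Additive.ofMul (u (Multiplicative.ofAdd (W^[7] (al 0))))))).toMul : K) := by
  set c : Kˣ := u (Multiplicative.ofAdd (W^[7] (al 0))) with hc
  have he : (e (sr 0) : Chev K) ≠ 0 := by
    intro h0
    have h1 := congrFun (congrArg Chev.x h0) (sr 0)
    simp at h1
  have h1 := tp_herm hL f (e (sr 0)) he
  rw [← TT_iter, TT15_e hη h, bf_smul_right, bf_e_neg, mul_neg, mul_one, neg_neg] at h1
  obtain ⟨h8, h9, h10, h11, h12, h13, h14⟩ := hom_bk u c hu rfl
  have hp : (∏ j ∈ Finset.range 15, (σ ^ (14 - j)) (u (Multiplicative.ofAdd (W^[j] (al 0))) : K)) =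
      (σ ^ 7) (c : K) * (σ ^ 6) (c⁻¹ : K) * (σ ^ 5) (c : K) * (σ ^ 2) (c : K) * (σ ^ 1) (c⁻¹ : K) * (c : K) := by
    rw [Finset.prod_range_succ, Finset.prod_range_succ, Finset.prod_range_succ, Finset.prod_range_succ,
      Finset.prod_range_succ, Finset.prod_range_succ, Finset.prod_range_succ, Finset.prod_range_succ,
      Finset.prod_eq_one (s := Finset.range 7)]
    · rw [h8, h9, h10, h11, h12, h13, h14, ← hc]
      simp only [Units.val_one, map_one, mul_one, Units.val_inv_eq_inv_val, one_mul]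
      norm_num
    · intro j hj
      rw [hu j (Finset.mem_range.1 hj), Units.val_one, map_one]
  rw [hp] at h1
  have h2 := h1.inv
  have hS : ∀ (n : ℕ) (x : Kˣ), (((S ^ n) (Additive.ofMul x)).toMul : K) = (σ ^ n) (x : K) := by
    intro n
    induction n with
    | zero => intro x; rfl
    | succ n ih =>
      intro x
      rw [pow_succ', Module.End.mul_apply, pow_succ', AlgEquiv.mul_apply, ← ih x]
      rfl
  have hA : (((aeval S A) (-(Additive.ofMul c))).toMul : K) = ((σ ^ 7) (c : K) * (σ ^ 6) (c⁻¹ : K) * (σ ^ 5) (c : K) *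
      (σ ^ 2) (c : K) * (σ ^ 1) (c⁻¹ : K) * (c : K))⁻¹ := by
    have h3 : (aeval S A) (-(Additive.ofMul c)) = (S ^ 7) (Additive.ofMul c⁻¹) + (S ^ 6) (Additive.ofMul c) +
        (S ^ 5) (Additive.ofMul c⁻¹) + (S ^ 2) (Additive.ofMul c⁻¹) + (S ^ 1) (Additive.ofMul c) + Additive.ofMul c⁻¹ := by
      rw [A]
      simp only [_root_.map_add, map_sub, map_pow, aeval_X, map_one, LinearMap.add_apply, LinearMap.sub_apply,
        Module.End.one_apply, ofMul_inv, map_neg, pow_one]
      abel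
    rw [h3]
    simp only [toMul_add, Units.val_mul, hS, toMul_ofMul, Units.val_inv_eq_inv_val, map_inv₀, mul_inv_rev, inv_inv]
    ring
  rw [hA]
  exact h2

end Pool.Agent.Helper73.E8
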